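import Pool.Agent.H79.BdimDims

/-!
# Broadcast dimension: from cliques to hitting sets
-/

set_option autoImplicit false

namespace Pool.Agent.H79.Bdim

section clique

/-- Relevant pairs: pairs of distinct nonadjacent vertices among the first `n`. -/
def relC (n : ℕ) (A : ℕ → ℕ → Prop) (p : Fin (n+2) × Fin (n+2)) : Prop :=
  p.1.val < n ∧ p.2.val < n ∧ p.1 ≠ p.2 ∧ ¬ A p.1.val p.2.val

/-- Incidence of a pair with the vertices; the other pairs are incident with the last one only. -/
def incC (n : ℕ) (A : ℕ → ℕ → Prop) (p q : Fin (n+2) × Fin (n+2)) : Prop :=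
  (relC n A p ∧ (q = (p.1, p.1) ∨ q = (p.2, p.2))) ∨
  (¬ relC n A p ∧ q = (Fin.last (n+1), Fin.last (n+1)))

lemma incC_exists (n : ℕ) (A : ℕ → ℕ → Prop) (p : Fin (n+2) × Fin (n+2)) :
    ∃ q, incC n A p q := by
  by_cases h : relC n A p
  · exact ⟨_, Or.inl ⟨h, Or.inl rfl⟩⟩
  · exact ⟨_, Or.inr ⟨h, rfl⟩⟩

/-- The graph with adjacency `A` on `{0, …, n-1}` has a clique with `k` vertices. -/
def HasClique (n : ℕ) (A : ℕ → ℕ → Prop) (k : ℕ) : Prop :=
  ∃ K : Finset ℕ, (∀ a ∈ K, a < n) ∧ K.card = k ∧ ∀ a ∈ K, ∀ b ∈ K, a ≠ b → A a b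

theorem clique_iff (n : ℕ) (A : ℕ → ℕ → Prop) (k : ℕ) :
    HasClique n A k ↔
      bdim (gad (incC n A)) ≤ (((n+2)*(n+2) + 1) ^ 2 + n + 1) - k := by
  classical
  rw [bdim_gad_le_iff (incC_exists n A)]
  have hcard : Fintype.card (Fin (n+2) × Fin (n+2)) = (n+2)*(n+2) := by simp
  rw [hcard]
  generalize ((n+2)*(n+2) + 1) ^ 2 = B
  constructor
  · rintro ⟨K, hK1, hK2, hK3⟩
    have hKn : K ⊆ Finset.range n := fun a ha => Finset.mem_range.2 (hK1 a ha)
    have hkn : k ≤ n := by
      have := Finset.card_le_card hKn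
      rwa [hK2, Finset.card_range] at this
    obtain ⟨D, hD⟩ : ∃ D : Finset (Fin (n+2) × Fin (n+2)), D =
      (Finset.univ.filter (fun a : Fin (n+2) => a.val < n ∧ a.val ∉ K)).image
        (fun a => (a, a)) := ⟨_, rfl⟩
    have h1 : D.card ≤ n - k := by
      rw [hD]
      refine Finset.card_image_le.trans ?_
      have h2 : (Finset.univ.filter (fun a : Fin (n+2) => a.val < n ∧ a.val ∉ K)).card ≤
          (Finset.range n \ K).card := by
        apply Finset.card_le_card_of_injOn (fun a => a.val)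
        · intro a ha
          simp only [Finset.coe_filter, Finset.mem_univ, true_and, Set.mem_ofPred_eq] at ha
          simp [ha.1, ha.2]
        · intro a _ b _ h
          exact Fin.ext h
      rw [Finset.card_sdiff_of_subset hKn, Finset.card_range, hK2] at h2
      exact h2
    obtain ⟨T, hT⟩ : ∃ T, T = insert (Fin.last (n+1), Fin.last (n+1)) D := ⟨_, rfl⟩
    have h3 : T.card ≤ D.card + 1 := by
      rw [hT]; exact Finset.card_insert_le _ _
    refine ⟨T, ?_, by omega⟩
    rintro ⟨a, b⟩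
    by_cases hrel : relC n A (a, b)
    · obtain ⟨ha, hb, hab, hA⟩ := hrel
      have hrel : relC n A (a, b) := ⟨ha, hb, hab, hA⟩
      simp only at ha hb hab hA
      by_cases haK : a.val ∈ K
      · by_cases hbK : b.val ∈ K
        · exact absurd (hK3 _ haK _ hbK (fun h => hab (Fin.ext h))) hA
        · refine ⟨(b, b), ?_, Or.inl ⟨hrel, Or.inr rfl⟩⟩
          rw [hT, hD]
          exact Finset.mem_insert_of_mem (Finset.mem_image.2 ⟨b, by simp [hb, hbK], rfl⟩)
      · refine ⟨(a, a), ?_, Or.inl ⟨hrel, Or.inl rfl⟩⟩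
        rw [hT, hD]
        exact Finset.mem_insert_of_mem (Finset.mem_image.2 ⟨a, by simp [ha, haK], rfl⟩)
    · refine ⟨_, ?_, Or.inr ⟨hrel, rfl⟩⟩
      rw [hT]
      exact Finset.mem_insert_self _ _
  · rintro ⟨T, hT, hcT⟩
    have hlast : (Fin.last (n+1), Fin.last (n+1)) ∈ T := by
      obtain ⟨q, hq, hinc⟩ := hT (Fin.last (n+1), Fin.last (n+1))
      have hrel : ¬ relC n A (Fin.last (n+1), Fin.last (n+1)) := by
        rintro ⟨h1, _⟩
        simp at h1
      rcases hinc with ⟨h, _⟩ | ⟨_, h⟩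
      · exact absurd h hrel
      · rwa [h] at hq
    set C : Finset ℕ := (Finset.range n).filter (fun a => ∃ h : a < n + 2, ((⟨a, h⟩ : Fin (n+2)),
      (⟨a, h⟩ : Fin (n+2))) ∈ T) with hC
    have hCT : C.card ≤ (T.erase (Fin.last (n+1), Fin.last (n+1))).card := by
      apply Finset.card_le_card_of_injOn (fun a => if h : a < n + 2 then
        ((⟨a, h⟩ : Fin (n+2)), (⟨a, h⟩ : Fin (n+2))) else (0, 0))
      · intro a ha
        simp only [hC, Finset.coe_filter, Finset.mem_range, Set.mem_ofPred_eq] at ha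
        obtain ⟨han, h, h2⟩ := ha
        simp only [h, dif_pos]
        rw [Finset.mem_coe, Finset.mem_erase]
        refine ⟨?_, h2⟩
        intro h3
        have h4 := congrArg (fun p => p.1.val) h3
        simp at h4
        omega
      · intro a ha b hb hab
        simp only [hC, Finset.coe_filter, Finset.mem_range, Set.mem_ofPred_eq] at ha hb
        obtain ⟨_, h, _⟩ := ha
        obtain ⟨_, h', _⟩ := hb
        simp only [h, h', dif_pos, Prod.mk.injEq, Fin.mk.injEq, and_self] at hab
        exact hab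
    have hTe := Finset.card_erase_of_mem hlast
    have hTpos : 0 < T.card := Finset.card_pos.2 ⟨_, hlast⟩
    have hCn : C ⊆ Finset.range n := Finset.filter_subset _ _
    have hcard2 : (Finset.range n \ C).card = n - C.card := by
      rw [Finset.card_sdiff_of_subset hCn, Finset.card_range]
    have hCn' : C.card ≤ n := by
      have := Finset.card_le_card hCn
      rwa [Finset.card_range] at this
    have hk : k ≤ (Finset.range n \ C).card := by
      rw [hcard2]
      omega
    obtain ⟨K, hK1, hK2⟩ := Finset.exists_subset_card_eq hk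
    refine ⟨K, fun a ha => Finset.mem_range.1 (Finset.mem_sdiff.1 (hK1 ha)).1, hK2, ?_⟩
    intro a ha b hb hab
    have ha1 := Finset.mem_sdiff.1 (hK1 ha)
    have hb1 := Finset.mem_sdiff.1 (hK1 hb)
    have han := Finset.mem_range.1 ha1.1
    have hbn := Finset.mem_range.1 hb1.1
    by_contra hA
    have hrel : relC n A (⟨a, by omega⟩, ⟨b, by omega⟩) :=
      ⟨han, hbn, fun h => hab (by simpa using h), hA⟩
    obtain ⟨q, hq, hinc⟩ := hT (⟨a, by omega⟩, ⟨b, by omega⟩)
    rcases hinc with ⟨_, h | h⟩ | ⟨h, _⟩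
    · subst h
      apply ha1.2
      rw [hC, Finset.mem_filter]
      exact ⟨ha1.1, by omega, hq⟩
    · subst h
      apply hb1.2
      rw [hC, Finset.mem_filter]
      exact ⟨hb1.1, by omega, hq⟩
    · exact h hrel

end clique

end Pool.Agent.H79.Bdim
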