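import Mathlib

/-!
# Broadcast dimension: definitions
-/

set_option autoImplicit false

namespace Pool.Agent.H79.Bdim

/-- `f` is a resolving broadcast of `G`: any two distinct vertices `x`, `y` have different truncated
distances `min (d, f z + 1)` to some vertex `z` with `f z > 0`. -/
def IsResolvingBroadcast {V : Type} (G : SimpleGraph V) (f : V → ℕ) : Prop :=
  ∀ x y : V, x ≠ y → ∃ z : V, 0 < f z ∧
    min (G.edist x z) ((f z : ℕ∞) + 1) ≠ min (G.edist y z) ((f z : ℕ∞) + 1)

/-- The broadcast dimension of a finite graph: the least cost of a resolving broadcast. -/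
noncomputable def bdim {V : Type} [Fintype V] (G : SimpleGraph V) : ℕ :=
  sInf {c : ℕ | ∃ f : V → ℕ, IsResolvingBroadcast G f ∧ ∑ v, f v = c}

/-- The adjacency dimension: the least cost of a resolving broadcast with values `0` and `1`. -/
noncomputable def adim {V : Type} [Fintype V] (G : SimpleGraph V) : ℕ :=
  sInf {c : ℕ | ∃ f : V → ℕ, (∀ v, f v ≤ 1) ∧ IsResolvingBroadcast G f ∧ ∑ v, f v = c}

/-- The metric dimension: the least size of a set `S` such that any two distinct vertices have
different distances to some vertex of `S`. -/
noncomputable def mdim {V : Type} (G : SimpleGraph V) : ℕ :=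
  sInf {c : ℕ | ∃ S : Finset V, (∀ x y : V, x ≠ y → ∃ z ∈ S, G.edist x z ≠ G.edist y z) ∧
    S.card = c}

/-- The number `k` written in unary: `k` ones followed by a zero. -/
def unary (k : ℕ) : List Bool := List.replicate k true ++ [false]

open Classical in
/-- The binary word that encodes a graph `G` on the vertices `0, ..., n-1` and a number `k`: `n` and
`k` in unary, followed by the rows of the adjacency matrix of `G`. -/
noncomputable def encode (n k : ℕ) (G : SimpleGraph (Fin n)) : List Bool :=
  unary n ++ (unary k ++ (List.finRange n).flatMap (fun u =>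
    (List.finRange n).map (fun v => decide (G.Adj u v))))

/-- The problem of deciding `bdim G ≤ k`, as a language: the words that encode a graph `G` and a
number `k` with `bdim G ≤ k`. -/
def BroadcastDim : Set (List Bool) :=
  {w | ∃ (n k : ℕ) (G : SimpleGraph (Fin n)), encode n k G = w ∧ bdim G ≤ k}

end Pool.Agent.H79.Bdim
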