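import Pool.Agent.H79.BdimGadget

/-!
# Broadcast dimension: the three dimensions of the gadget graph
-/

set_option autoImplicit false

namespace Pool.Agent.H79.Bdim

open Vx

section dims

variable {I : Type} {inc : I → I → Prop}

/-! ### Connectedness -/

lemma gad_connected [Nonempty I] : (gad inc).Connected := by
  have hw : ∀ v : Vx I, (gad inc).Reachable v (w false) := by
    have hy : ∀ p q, (gad inc).Reachable (y p q) (w false) := by
      intro p q
      apply SimpleGraph.Adj.reachable
      rw [gad_adj]; simp [half]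
    have hx : ∀ b p, (gad inc).Reachable (x b p) (w false) := by
      intro b p
      apply SimpleGraph.Adj.reachable
      rw [gad_adj]; simp [half]
    intro v
    cases v with
    | s b q =>
      refine SimpleGraph.Reachable.trans (v := y q q) (SimpleGraph.Adj.reachable ?_) (hy q q)
      rw [gad_adj]; simp [half]
    | y p q => exact hy p q
    | a b p q =>
      refine SimpleGraph.Reachable.trans (v := y p q) (SimpleGraph.Adj.reachable ?_) (hy p q)
      rw [gad_adj]; simp [half]
    | x b p => exact hx b p
    | t b p =>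
      refine SimpleGraph.Reachable.trans (v := x b p) (SimpleGraph.Adj.reachable ?_) (hx b p)
      rw [gad_adj]; simp [half]
    | w b =>
      obtain ⟨p⟩ := (inferInstance : Nonempty I)
      refine SimpleGraph.Reachable.trans (v := x b p) (SimpleGraph.Adj.reachable ?_) (hx b p)
      rw [gad_adj]; simp [half]
  exact { preconnected := fun u v => (hw u).trans (hw v).symm, nonempty := ⟨w false⟩ }

/-! ### Lower bounds -/

/-- Twin pairs of the gadget. -/
inductive Twin : Vx I → Vx I → Prop
  | s (q : I) : Twin (s true q) (s false q)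
  | a (p q : I) : Twin (a true p q) (a false p q)
  | t (p : I) : Twin (t true p) (t false p)
  | w : Twin (w true) (w false)

lemma Twin.eq_or {u v z : Vx I} (h : Twin u v) (hne : (gad inc).edist u z ≠ (gad inc).edist v z) :
    z = u ∨ z = v := by
  by_contra hcon
  push Not at hcon
  apply hne
  refine edist_twins ?_ hcon.1.symm hcon.2.symm
  intro c h1 h2
  cases h with
  | s q => exact twins_s q c h1 h2
  | a p q => exact twins_a p q c h1 h2
  | t p => exact twins_t p c h1 h2
  | w => exact twins_w c h1 h2

lemma Twin.ne {u v : Vx I} (h : Twin u v) : u ≠ v := by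
  cases h <;> simp

/-- A resolving broadcast meets each twin pair. -/
lemma twin_lower {f : Vx I → ℕ} (hf : IsResolvingBroadcast (gad inc) f) {u v : Vx I}
    (h : Twin u v) : 1 ≤ f u + f v := by
  obtain ⟨z, hz, hsep⟩ := hf u v h.ne
  rcases h.eq_or (z := z) (inc := inc) (fun h2 => hsep (by rw [h2])) with rfl | rfl <;> omega

lemma twin_lower' {S : Finset (Vx I)} [DecidableEq (Vx I)]
    (hS : ∀ x y : Vx I, x ≠ y → ∃ z ∈ S, (gad inc).edist x z ≠ (gad inc).edist y z) {u v : Vx I}
    (h : Twin u v) : 1 ≤ (if u ∈ S then 1 else 0) + (if v ∈ S then 1 else 0) := by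
  obtain ⟨z, hz, hsep⟩ := hS u v h.ne
  rcases h.eq_or hsep with rfl | rfl
  · simp [hz]
  · simp [hz]

/-- What a broadcast that meets each twin pair costs. -/
lemma base_lower [Fintype I] {f : Vx I → ℕ} (hf : ∀ u v, Twin u v → 1 ≤ f u + f v) :
    (Fintype.card I + 1) ^ 2 ≤ ∑ v, f v := by
  rw [sum_Vx]
  have h1 : Fintype.card I ≤ ∑ q, (f (s true q) + f (s false q)) := by
    rw [← Finset.card_univ, Finset.card_eq_sum_ones]
    exact Finset.sum_le_sum (fun q _ => hf _ _ (Twin.s q))
  have h2 : Fintype.card I * Fintype.card I ≤ ∑ p, ∑ q, (f (a true p q) + f (a false p q)) := by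
    have : Fintype.card I * Fintype.card I = ∑ _p : I, ∑ _q : I, 1 := by simp
    rw [this]
    exact Finset.sum_le_sum (fun p _ => Finset.sum_le_sum (fun q _ => hf _ _ (Twin.a p q)))
  have h3 : Fintype.card I ≤ ∑ p, (f (t true p) + f (t false p)) := by
    rw [← Finset.card_univ, Finset.card_eq_sum_ones]
    exact Finset.sum_le_sum (fun q _ => hf _ _ (Twin.t q))
  have h4 := hf _ _ (Twin.w (I := I))
  have e : (Fintype.card I + 1) ^ 2 = Fintype.card I * Fintype.card I + 2 * Fintype.card I + 1 := by
    ring
  omega

/-- How a resolving broadcast separates the vertices of a pair. -/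
lemma pair_lower [Fintype I] {f : Vx I → ℕ} (hf : IsResolvingBroadcast (gad inc) f) (p : I) :
    (∃ q b, inc p q ∧ 2 ≤ f (s b q)) ∨ Fintype.card I + 1 ≤ ∑ q, f (y p q) +
      (∑ q, (f (a true p q) + f (a false p q)) + (f (x true p) + f (x false p))) := by
  classical
  have hbase : Fintype.card I ≤ ∑ q, (f (a true p q) + f (a false p q)) := by
    rw [← Finset.card_univ, Finset.card_eq_sum_ones]
    exact Finset.sum_le_sum (fun q _ => twin_lower hf (Twin.a p q))
  obtain ⟨z, hz, hsep⟩ := hf (x true p) (x false p) (by simp)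
  by_cases h1 : z = x true p
  · subst h1; right; omega
  by_cases h2 : z = x false p
  · subst h2; right; omega
  by_cases h3 : ∃ q, inc p q ∧ z = y p q
  · obtain ⟨q, _, rfl⟩ := h3
    have := Finset.single_le_sum (f := fun q => f (y p q)) (fun _ _ => Nat.zero_le _)
      (Finset.mem_univ q)
    right; omega
  by_cases h4 : ∃ q b, inc p q ∧ z = s b q
  · obtain ⟨q, b, hinc, rfl⟩ := h4
    left
    refine ⟨q, b, hinc, ?_⟩
    by_contra hlt
    have hf1 : f (s b q) = 1 := by omega
    rw [hf1] at hsep
    refine not_sep_one (G := gad inc) (z := s b q) (x := x true p) (y := x false p)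
      (by simp) (by simp) ?_ hsep
    rw [gad_adj, gad_adj]; simp [half]
  by_cases h5 : ∃ q b, inc p q ∧ z = a b p q
  · obtain ⟨q, b, hinc, rfl⟩ := h5
    right
    have hge : 2 ≤ f (a b p q) := by
      by_contra hlt
      have hf1 : f (a b p q) = 1 := by omega
      rw [hf1] at hsep
      refine not_sep_one (G := gad inc) (z := a b p q) (x := x true p) (y := x false p)
        (by simp) (by simp) ?_ hsep
      rw [gad_adj, gad_adj]; simp [half]
    have hlt : ∑ _q : I, 1 < ∑ q, (f (a true p q) + f (a false p q)) := by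
      apply Finset.sum_lt_sum (fun q _ => twin_lower hf (Twin.a p q))
      refine ⟨q, Finset.mem_univ q, ?_⟩
      cases b <;> omega
    rw [← Finset.card_eq_sum_ones, Finset.card_univ] at hlt
    omega
  · exfalso
    apply hsep
    have := edist_pair (inc := inc) p z h1 h2 (fun q hq h => h3 ⟨q, hq, h⟩)
      (fun q b hq h => h4 ⟨q, b, hq, h⟩) (fun q b hq h => h5 ⟨q, b, hq, h⟩)
    rw [this]

/-! ### Broadcasts -/

/-- A broadcast. -/
def bc (g h : I → ℕ) : Vx I → ℕ
  | s b q => if b = false then 1 + g q else 0
  | y _ _ => 0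
  | a b _ _ => if b = false then 1 else 0
  | x b p => if b = false then h p else 0
  | t b _ => if b = false then 1 else 0
  | w b => if b = false then 1 else 0

lemma bc_base (g h : I → ℕ) {z : Vx I} (hz : IsBase z) : 0 < bc g h z := by
  cases z <;> simp_all [IsBase, bc]

lemma bc_sum [Fintype I] (g h : I → ℕ) :
    ∑ v, bc g h v = (Fintype.card I + 1) ^ 2 + ∑ q, g q + ∑ p, h p := by
  rw [sum_Vx]
  simp [bc, Finset.sum_add_distrib]
  ring

lemma bc_resolving (g h : I → ℕ) (hp : ∀ p, (∃ q, inc p q ∧ 0 < g q) ∨ 0 < h p) :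
    IsResolvingBroadcast (gad inc) (bc g h) := by
  intro u v huv
  rcases base_resolves (inc := inc) u v huv with ⟨z, hz, h1 | h1 | h1 | h1⟩ | ⟨p, h1⟩
  · subst h1
    exact ⟨z, bc_base g h hz, sep_self huv⟩
  · subst h1
    exact ⟨z, bc_base g h hz, (sep_self huv.symm).symm⟩
  · exact ⟨z, bc_base g h hz, sep_adj (bc_base g h hz) h1.1 h1.2⟩
  · exact ⟨z, bc_base g h hz, (sep_adj (bc_base g h hz) h1.1 h1.2).symm⟩
  · have key : ∃ z, 0 < bc g h z ∧ Sep (gad inc) (bc g h z) z (x true p) (x false p) := by
      rcases hp p with ⟨q, hq, hg⟩ | hh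
      · refine ⟨s false q, by simp [bc], ?_⟩
        unfold Sep
        rw [edist_x_true p q false, edist_x_false p q false hq]
        have h2 : (2 : ℕ∞) ≤ ((bc g h (s false q) : ℕ) : ℕ∞) := by
          have : 2 ≤ bc g h (s false q) := by simp [bc]; omega
          exact_mod_cast this
        have h3 : (3 : ℕ∞) ≤ ((bc g h (s false q) : ℕ) : ℕ∞) + 1 := by
          calc (3 : ℕ∞) = 2 + 1 := by norm_num
            _ ≤ _ := by gcongr
        rw [min_eq_left h3, min_eq_left (le_trans (by norm_num) h3)]
        norm_num
      · refine ⟨x false p, by simpa [bc] using hh, (sep_self (by simp)).symm⟩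
    obtain ⟨z, hz, hsep⟩ := key
    rcases h1 with ⟨rfl, rfl⟩ | ⟨rfl, rfl⟩
    · exact ⟨z, hz, hsep⟩
    · exact ⟨z, hz, hsep.symm⟩

/-! ### The three dimensions -/

variable [Fintype I]

/-- The broadcast dimension of the gadget encodes the hitting set problem. -/
theorem bdim_gad_le_iff (hne : ∀ p, ∃ q, inc p q) (k : ℕ) : bdim (gad inc) ≤ k ↔
    ∃ T : Finset I, (∀ p, ∃ q ∈ T, inc p q) ∧ (Fintype.card I + 1) ^ 2 + T.card ≤ k := by
  classical
  rw [bdim_le_iff]
  constructor
  · rintro ⟨f, hf, hs⟩
    choose c hc using hne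
    set e : I → ℕ := fun p => ∑ q, f (y p q) +
      (∑ q, (f (a true p q) + f (a false p q)) + (f (x true p) + f (x false p))) with he
    set T1 : Finset I := Finset.univ.filter (fun q => 2 ≤ f (s true q) + f (s false q)) with hT1
    set E : Finset I := Finset.univ.filter (fun p => Fintype.card I + 1 ≤ e p) with hE
    refine ⟨T1 ∪ E.image c, ?_, ?_⟩
    · intro p
      rcases pair_lower hf p with ⟨q, b, hq, h2⟩ | h2
      · refine ⟨q, Finset.mem_union_left _ ?_, hq⟩
        simp only [hT1, Finset.mem_filter, Finset.mem_univ, true_and]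
        cases b <;> omega
      · refine ⟨c p, Finset.mem_union_right _ (Finset.mem_image_of_mem _ ?_), hc p⟩
        simp only [hE, Finset.mem_filter, Finset.mem_univ, true_and]
        exact h2
    · have h5 : (T1 ∪ E.image c).card ≤ T1.card + E.card :=
        (Finset.card_union_le _ _).trans (Nat.add_le_add_left Finset.card_image_le _)
      have h1 : Fintype.card I + T1.card ≤ ∑ q, (f (s true q) + f (s false q)) := by
        rw [← Finset.card_univ, Finset.card_eq_sum_ones, Finset.card_eq_sum_ones, hT1,
          Finset.sum_filter, ← Finset.sum_add_distrib]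
        apply Finset.sum_le_sum
        intro q _
        have := twin_lower hf (Twin.s q)
        split_ifs with h
        · omega
        · omega
      have h2 : Fintype.card I * Fintype.card I + E.card ≤ ∑ p, e p := by
        have e1 : Fintype.card I * Fintype.card I = ∑ _p : I, Fintype.card I := by simp
        rw [e1, Finset.card_eq_sum_ones, hE, Finset.sum_filter, ← Finset.sum_add_distrib]
        apply Finset.sum_le_sum
        intro p _
        have hbase : Fintype.card I ≤ ∑ q, (f (a true p q) + f (a false p q)) := by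
          rw [← Finset.card_univ, Finset.card_eq_sum_ones]
          exact Finset.sum_le_sum (fun q _ => twin_lower hf (Twin.a p q))
        split_ifs with h
        · exact h
        · simp only [he]; omega
      have h3 : Fintype.card I ≤ ∑ p, (f (t true p) + f (t false p)) := by
        rw [← Finset.card_univ, Finset.card_eq_sum_ones]
        exact Finset.sum_le_sum (fun q _ => twin_lower hf (Twin.t q))
      have h4 := twin_lower hf (Twin.w (I := I))
      have h6 : ∑ p, e p = ∑ p, ∑ q, f (y p q) +
        (∑ p, ∑ q, (f (a true p q) + f (a false p q)) + ∑ p, (f (x true p) + f (x false p))) := by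
        simp only [he, Finset.sum_add_distrib]
      rw [sum_Vx] at hs
      rw [h6] at h2
      nlinarith
  · rintro ⟨T, hT, hk⟩
    refine ⟨bc (fun q => if q ∈ T then 1 else 0) (fun _ => 0), bc_resolving _ _ ?_, ?_⟩
    · intro p
      obtain ⟨q, hq, hinc⟩ := hT p
      exact Or.inl ⟨q, hinc, by simp [hq]⟩
    · rw [bc_sum]
      simpa using hk

/-- The adjacency dimension of the gadget. -/
theorem adim_gad : adim (gad inc) = (Fintype.card I + 1) ^ 2 + Fintype.card I := by
  classical
  apply le_antisymm
  · rw [adim_le_iff]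
    refine ⟨bc (fun _ => 0) (fun _ => 1), ?_, bc_resolving _ _ (fun p => Or.inr Nat.one_pos), ?_⟩
    · intro v
      cases v <;> simp only [bc] <;> first | omega | (split_ifs <;> omega)
    · rw [bc_sum]; simp
  · obtain ⟨f, hf1, hf, hs⟩ := (adim_le_iff (gad inc) _).1 le_rfl
    refine le_trans ?_ hs
    set e : I → ℕ := fun p => ∑ q, f (y p q) +
      (∑ q, (f (a true p q) + f (a false p q)) + (f (x true p) + f (x false p))) with he
    have h1 : Fintype.card I ≤ ∑ q, (f (s true q) + f (s false q)) := by
      rw [← Finset.card_univ, Finset.card_eq_sum_ones]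
      exact Finset.sum_le_sum (fun q _ => twin_lower hf (Twin.s q))
    have h2 : Fintype.card I * (Fintype.card I + 1) ≤ ∑ p, e p := by
      have e1 : Fintype.card I * (Fintype.card I + 1) = ∑ _p : I, (Fintype.card I + 1) := by simp
      rw [e1]
      apply Finset.sum_le_sum
      intro p _
      rcases pair_lower hf p with ⟨q, b, hq, h2⟩ | h2
      · have := hf1 (s b q)
        omega
      · exact h2
    have h3 : Fintype.card I ≤ ∑ p, (f (t true p) + f (t false p)) := by
      rw [← Finset.card_univ, Finset.card_eq_sum_ones]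
      exact Finset.sum_le_sum (fun q _ => twin_lower hf (Twin.t q))
    have h4 := twin_lower hf (Twin.w (I := I))
    have h6 : ∑ p, e p = ∑ p, ∑ q, f (y p q) +
      (∑ p, ∑ q, (f (a true p q) + f (a false p q)) + ∑ p, (f (x true p) + f (x false p))) := by
      simp only [he, Finset.sum_add_distrib]
    rw [sum_Vx]
    rw [h6] at h2
    nlinarith

/-- The metric dimension of the gadget. -/
theorem mdim_gad (hne : ∀ p, ∃ q, inc p q) : mdim (gad inc) = (Fintype.card I + 1) ^ 2 := by
  classical
  apply le_antisymm
  · rw [mdim_le_iff]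
    refine ⟨Finset.univ.filter (fun z : Vx I => IsBase z), ?_, ?_⟩
    · intro u v huv
      rcases base_resolves (inc := inc) u v huv with ⟨z, hz, h1 | h1 | h1 | h1⟩ | ⟨p, h1⟩
      · subst h1
        refine ⟨z, by simp [hz], ?_⟩
        rw [SimpleGraph.edist_self]
        intro h
        exact huv (SimpleGraph.edist_eq_zero_iff.1 h.symm).symm
      · subst h1
        refine ⟨z, by simp [hz], ?_⟩
        rw [SimpleGraph.edist_self]
        intro h
        exact huv (SimpleGraph.edist_eq_zero_iff.1 h)
      · refine ⟨z, by simp [hz], ?_⟩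
        rw [SimpleGraph.edist_eq_one_iff_adj.2 h1.1]
        intro h
        exact h1.2 (SimpleGraph.edist_eq_one_iff_adj.1 h.symm)
      · refine ⟨z, by simp [hz], ?_⟩
        rw [SimpleGraph.edist_eq_one_iff_adj.2 h1.1]
        intro h
        exact h1.2 (SimpleGraph.edist_eq_one_iff_adj.1 h)
      · obtain ⟨q, hq⟩ := hne p
        refine ⟨s false q, Finset.mem_filter.2 ⟨Finset.mem_univ _, rfl⟩, ?_⟩
        have e1 := edist_x_true (inc := inc) p q false
        have e2 := edist_x_false (inc := inc) p q false hq
        rcases h1 with ⟨rfl, rfl⟩ | ⟨rfl, rfl⟩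
        · rw [e1, e2]; norm_num
        · rw [e1, e2]; norm_num
    · rw [Finset.card_eq_sum_ones, Finset.sum_filter, sum_Vx]
      simp [IsBase]
      apply le_of_eq
      ring
  · obtain ⟨S, hS, hs⟩ := (mdim_le_iff (gad inc) _).1 le_rfl
    refine le_trans ?_ hs
    have h1 := base_lower (f := fun v => if v ∈ S then 1 else 0)
      (fun u v h => twin_lower' hS h)
    refine h1.trans (le_of_eq ?_)
    simp

end dims

end Pool.Agent.H79.Bdim
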