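import Pool.Agent.H79.BdimGen

/-!
# Broadcast dimension: the gadget graph

A graph whose metric dimension and adjacency dimension are explicit, while its broadcast dimension
encodes the hitting set problem.
-/

set_option autoImplicit false

namespace Pool.Agent.H79.Bdim

/-- Vertices of the gadget graph. -/
inductive Vx (I : Type) : Type
  | s (b : Bool) (q : I)
  | y (p q : I)
  | a (b : Bool) (p q : I)
  | x (b : Bool) (p : I)
  | t (b : Bool) (p : I)
  | w (b : Bool)
  deriving DecidableEq

open Vx

/-- The vertices as a sum type. -/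
def Vx.equiv (I : Type) :
    Vx I ≃ (Bool × I) ⊕ (I × I) ⊕ (Bool × (I × I)) ⊕ (Bool × I) ⊕ (Bool × I) ⊕ Bool where
  toFun
    | s b q => Sum.inl (b, q)
    | y p q => Sum.inr (Sum.inl (p, q))
    | a b p q => Sum.inr (Sum.inr (Sum.inl (b, (p, q))))
    | x b p => Sum.inr (Sum.inr (Sum.inr (Sum.inl (b, p))))
    | t b p => Sum.inr (Sum.inr (Sum.inr (Sum.inr (Sum.inl (b, p)))))
    | w b => Sum.inr (Sum.inr (Sum.inr (Sum.inr (Sum.inr b))))
  invFun
    | Sum.inl (b, q) => s b q
    | Sum.inr (Sum.inl (p, q)) => y p q
    | Sum.inr (Sum.inr (Sum.inl (b, (p, q)))) => a b p q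
    | Sum.inr (Sum.inr (Sum.inr (Sum.inl (b, p)))) => x b p
    | Sum.inr (Sum.inr (Sum.inr (Sum.inr (Sum.inl (b, p))))) => t b p
    | Sum.inr (Sum.inr (Sum.inr (Sum.inr (Sum.inr b)))) => w b
  left_inv v := by cases v <;> rfl
  right_inv v := by rcases v with _ | _ | _ | _ | _ | _ <;> rfl

instance {I : Type} [Fintype I] : Fintype (Vx I) := Fintype.ofEquiv _ (Vx.equiv I).symm

lemma card_Vx (I : Type) [Fintype I] :
    Fintype.card (Vx I) = 3 * (Fintype.card I) ^ 2 + 6 * Fintype.card I + 2 := by
  rw [Fintype.card_congr (Vx.equiv I)]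
  simp only [Fintype.card_sum, Fintype.card_prod, Fintype.card_bool]
  ring

lemma sum_Vx {I : Type} [Fintype I] (f : Vx I → ℕ) : ∑ v, f v =
    (∑ q, (f (s true q) + f (s false q))) + ((∑ p, ∑ q, f (y p q)) +
    ((∑ p, ∑ q, (f (a true p q) + f (a false p q))) +
    ((∑ p, (f (x true p) + f (x false p))) + ((∑ p, (f (t true p) + f (t false p))) +
    (f (w true) + f (w false)))))) := by
  rw [← Equiv.sum_comp (Vx.equiv I).symm f]
  simp only [Fintype.sum_sum_type, Fintype.sum_prod_type, Fintype.sum_bool,
    Finset.sum_add_distrib]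
  rfl

section gadget

variable {I : Type} (inc : I → I → Prop)

/-- One half of the adjacency relation of the gadget graph. -/
def half : Vx I → Vx I → Prop
  | s _ q, s _ q' => q = q'
  | s _ q, y _ q' => q = q'
  | a _ p q, a _ p' q' => p = p' ∧ q = q'
  | a _ p q, y p' q' => p = p' ∧ q = q'
  | y p q, x b p' => b = false ∧ p = p' ∧ inc p q
  | x _ p, t _ p' => p = p'
  | t _ p, t _ p' => p = p'
  | w _, w _ => True
  | w _, y _ _ => True
  | w _, x _ _ => True
  | _, _ => False

/-- The gadget graph. -/
def gad : SimpleGraph (Vx I) := SimpleGraph.fromRel (half inc)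

variable {inc}

lemma gad_adj (v w' : Vx I) : (gad inc).Adj v w' ↔ v ≠ w' ∧ (half inc v w' ∨ half inc w' v) :=
  SimpleGraph.fromRel_adj _ _ _

/-! ### Twins -/

lemma twins_s (q : I) (c : Vx I) (h1 : c ≠ s true q) (h2 : c ≠ s false q) :
    ((gad inc).Adj (s true q) c ↔ (gad inc).Adj (s false q) c) := by
  rw [gad_adj, gad_adj]
  cases c <;> simp_all [half, eq_comm]

lemma twins_a (p q : I) (c : Vx I) (h1 : c ≠ a true p q) (h2 : c ≠ a false p q) :
    ((gad inc).Adj (a true p q) c ↔ (gad inc).Adj (a false p q) c) := by
  rw [gad_adj, gad_adj]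
  cases c <;> simp_all [half, eq_comm]

lemma twins_t (p : I) (c : Vx I) (h1 : c ≠ t true p) (h2 : c ≠ t false p) :
    ((gad inc).Adj (t true p) c ↔ (gad inc).Adj (t false p) c) := by
  rw [gad_adj, gad_adj]
  cases c <;> simp_all [half, eq_comm]

lemma twins_w (c : Vx I) (h1 : c ≠ w true) (h2 : c ≠ w false) :
    ((gad inc).Adj (w true) c ↔ (gad inc).Adj (w false) c) := by
  rw [gad_adj, gad_adj]
  cases c <;> simp_all [half, eq_comm]

/-! ### Distances from the two vertices of a pair -/

lemma edist_pair (p : I) (z : Vx I) (h1 : z ≠ x true p) (h2 : z ≠ x false p)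
    (h3 : ∀ q, inc p q → z ≠ y p q) (h4 : ∀ q b, inc p q → z ≠ s b q)
    (h5 : ∀ q b, inc p q → z ≠ a b p q) :
    (gad inc).edist (x true p) z = (gad inc).edist (x false p) z := by
  cases z with
  | s b q =>
    have hinc : ¬ inc p q := fun h => h4 q b h rfl
    have e : ∀ b', (gad inc).edist (x b' p) (s b q) = 3 := by
      intro b'
      apply edist_eq_three (c := w false) (d := y p q)
      · simp
      · rw [gad_adj]; simp [half]
      · intro c hc1 hc2
        rw [gad_adj] at hc1 hc2
        cases c <;> simp_all [half]
        exact hinc (hc1.2.1 ▸ hc1.2.2)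
      · rw [gad_adj]; simp [half]
      · rw [gad_adj]; simp [half]
      · rw [gad_adj]; simp [half]
    rw [e, e]
  | y p' q =>
    have hinc : ¬ (p = p' ∧ inc p q) := by
      rintro ⟨rfl, h⟩
      exact h3 q h rfl
    have e : ∀ b', (gad inc).edist (x b' p) (y p' q) = 2 := by
      intro b'
      apply edist_eq_two (c := w false)
      · simp
      · rw [gad_adj]; simp only [half]
        rintro ⟨_, h | ⟨_, h6, h7⟩⟩
        · exact h
        · subst h6; exact hinc ⟨rfl, h7⟩
      · rw [gad_adj]; simp [half]
      · rw [gad_adj]; simp [half]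
    rw [e, e]
  | a b p' q =>
    have hinc : ¬ (p = p' ∧ inc p q) := by
      rintro ⟨rfl, h⟩
      exact h5 q b h rfl
    have e : ∀ b', (gad inc).edist (x b' p) (a b p' q) = 3 := by
      intro b'
      apply edist_eq_three (c := w false) (d := y p' q)
      · simp
      · rw [gad_adj]; simp [half]
      · intro c hc1 hc2
        rw [gad_adj] at hc1 hc2
        cases c <;> simp_all [half]
        exact hinc (hc1.2.1 ▸ hc1.2.2)
      · rw [gad_adj]; simp [half]
      · rw [gad_adj]; simp [half]
      · rw [gad_adj]; simp [half]
    rw [e, e]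
  | x b p' =>
    have hp : p ≠ p' := by
      rintro rfl
      cases b
      · exact h2 rfl
      · exact h1 rfl
    have e : ∀ b', (gad inc).edist (x b' p) (x b p') = 2 := by
      intro b'
      apply edist_eq_two (c := w false)
      · simp [hp]
      · rw [gad_adj]; simp [half]
      · rw [gad_adj]; simp [half]
      · rw [gad_adj]; simp [half]
    rw [e, e]
  | t b p' =>
    by_cases hp : p = p'
    · subst hp
      have e : ∀ b', (gad inc).edist (x b' p) (t b p) = 1 := by
        intro b'
        apply SimpleGraph.edist_eq_one_iff_adj.2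
        rw [gad_adj]; simp [half]
      rw [e, e]
    · have e : ∀ b', (gad inc).edist (x b' p) (t b p') = 3 := by
        intro b'
        apply edist_eq_three (c := w false) (d := x false p')
        · simp
        · rw [gad_adj]; simp [half, hp]
        · intro c hc1 hc2
          rw [gad_adj] at hc1 hc2
          cases c <;> simp_all [half]
        · rw [gad_adj]; simp [half]
        · rw [gad_adj]; simp [half]
        · rw [gad_adj]; simp [half]
      rw [e, e]
  | w b =>
    have e : ∀ b', (gad inc).edist (x b' p) (w b) = 1 := by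
      intro b'
      apply SimpleGraph.edist_eq_one_iff_adj.2
      rw [gad_adj]; simp [half]
    rw [e, e]

/-- A centre at distance two. -/
lemma edist_x_false (p q : I) (b : Bool) (h : inc p q) :
    (gad inc).edist (x false p) (s b q) = 2 := by
  apply edist_eq_two (c := y p q)
  · simp
  · rw [gad_adj]; simp [half]
  · rw [gad_adj]; simp [half, h]
  · rw [gad_adj]; simp [half]

lemma edist_x_true (p q : I) (b : Bool) : (gad inc).edist (x true p) (s b q) = 3 := by
  apply edist_eq_three (c := w false) (d := y p q)
  · simp
  · rw [gad_adj]; simp [half]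
  · intro c hc1 hc2
    rw [gad_adj] at hc1 hc2
    cases c <;> simp_all [half]
  · rw [gad_adj]; simp [half]
  · rw [gad_adj]; simp [half]
  · rw [gad_adj]; simp [half]

/-! ### The base landmarks resolve everything but the pairs -/

/-- Base landmarks. -/
def IsBase : Vx I → Prop
  | s b _ => b = false
  | a b _ _ => b = false
  | t b _ => b = false
  | w b => b = false
  | _ => False

lemma base_resolves (u v : Vx I) (huv : u ≠ v) :
    (∃ z, IsBase z ∧ (z = u ∨ z = v ∨ ((gad inc).Adj u z ∧ ¬ (gad inc).Adj v z) ∨
      ((gad inc).Adj v z ∧ ¬ (gad inc).Adj u z))) ∨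
    ∃ p, (u = x true p ∧ v = x false p) ∨ (u = x false p ∧ v = x true p) := by
  by_cases hu : IsBase u
  · exact Or.inl ⟨u, hu, Or.inl rfl⟩
  by_cases hv : IsBase v
  · exact Or.inl ⟨v, hv, Or.inr (Or.inl rfl)⟩
  by_contra hcon
  push Not at hcon
  obtain ⟨h1, h2⟩ := hcon
  have key : ∀ z, IsBase z → ((gad inc).Adj u z ↔ (gad inc).Adj v z) := by
    intro z hz
    obtain ⟨_, _, h3, h4⟩ := h1 z hz
    exact ⟨h3, h4⟩
  clear h1
  have ks : ∀ q, ((gad inc).Adj u (s false q) ↔ (gad inc).Adj v (s false q)) :=
    fun q => key _ rfl
  have ka : ∀ p q, ((gad inc).Adj u (a false p q) ↔ (gad inc).Adj v (a false p q)) :=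
    fun p q => key _ rfl
  have kt : ∀ p, ((gad inc).Adj u (t false p) ↔ (gad inc).Adj v (t false p)) :=
    fun p => key _ rfl
  have kw := key (w false) rfl
  clear key
  cases u with
  | s b q =>
    have hb : b = true := by simpa [IsBase] using hu
    subst hb
    have k1 := ks q
    rw [gad_adj, gad_adj] at k1 kw
    cases v with
    | s b' q' =>
      have hb : b' = true := by simpa [IsBase] using hv
      subst hb
      simp_all [half]
    | y p' q' =>
      simp_all [half]
    | a b' p' q' => simp_all [half]
    | x b' p' => simp_all [half]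
    | t b' p' => simp_all [half]
    | w b' => simp_all [half]
  | y p q =>
    have k1 := ks q
    have k2 := ka p q
    rw [gad_adj, gad_adj] at k1 k2 kw
    cases v with
    | s b' q' => simp_all [half]
    | y p' q' => simp_all [half]
    | a b' p' q' => simp_all [half]
    | x b' p' => simp_all [half]
    | t b' p' => simp_all [half]
    | w b' => simp_all [half]
  | a b p q =>
    have hb : b = true := by simpa [IsBase] using hu
    subst hb
    have k1 := ka p q
    rw [gad_adj, gad_adj] at k1 kw
    cases v with
    | s b' q' => simp_all [half]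
    | y p' q' => simp_all [half]
    | a b' p' q' =>
      have hb : b' = true := by simpa [IsBase] using hv
      subst hb
      simp_all [half]
      rcases k1 with ⟨e1, e2⟩ | ⟨e1, e2⟩
      · exact huv e1.symm e2.symm
      · exact huv e1 e2
    | x b' p' => simp_all [half]
    | t b' p' => simp_all [half]
    | w b' => simp_all [half]
  | x b p =>
    have k1 := kt p
    rw [gad_adj, gad_adj] at k1 kw
    cases v with
    | s b' q' => simp_all [half]
    | y p' q' => simp_all [half]
    | a b' p' q' => simp_all [half]
    | x b' p' =>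
      cases b <;> cases b' <;> simp_all [half]
    | t b' p' => simp_all [half]
    | w b' => simp_all [half]
  | t b p =>
    have hb : b = true := by simpa [IsBase] using hu
    subst hb
    have k1 := kt p
    rw [gad_adj, gad_adj] at k1 kw
    cases v with
    | s b' q' => simp_all [half]
    | y p' q' => simp_all [half]
    | a b' p' q' => simp_all [half]
    | x b' p' => simp_all [half]
    | t b' p' =>
      have hb : b' = true := by simpa [IsBase] using hv
      subst hb
      simp_all [half]
    | w b' => simp_all [half]
  | w b =>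
    have hb : b = true := by simpa [IsBase] using hu
    subst hb
    cases v with
    | s b' q' =>
      rw [gad_adj, gad_adj] at kw
      simp_all [half]
    | y p' q' =>
      have k1 := ks q'
      rw [gad_adj, gad_adj] at k1
      simp_all [half]
    | a b' p' q' =>
      rw [gad_adj, gad_adj] at kw
      simp_all [half]
    | x b' p' =>
      have k1 := kt p'
      rw [gad_adj, gad_adj] at k1
      simp_all [half]
    | t b' p' =>
      rw [gad_adj, gad_adj] at kw
      simp_all [half]
    | w b' =>
      have hb : b' = true := by simpa [IsBase] using hv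
      subst hb
      exact huv rfl

end gadget

end Pool.Agent.H79.Bdim
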