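import Pool.Agent.H79.BdimDefs

/-!
# Broadcast dimension: general lemmas
-/

set_option autoImplicit false

namespace Pool.Agent.H79.Bdim

section general

variable {V : Type}

lemma isResolvingBroadcast_one (G : SimpleGraph V) : IsResolvingBroadcast G (fun _ => 1) := by
  intro x y hxy
  refine ⟨x, Nat.one_pos, ?_⟩
  rw [SimpleGraph.edist_self]
  intro h
  have h1 : min (0 : ℕ∞) (((1:ℕ) : ℕ∞) + 1) = 0 := by simp
  rw [h1] at h
  have h2 := h.symm
  rw [min_eq_iff] at h2
  rcases h2 with ⟨h3, _⟩ | ⟨h3, _⟩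
  · rw [SimpleGraph.edist_eq_zero_iff] at h3
    exact hxy h3.symm
  · simp at h3

lemma bdim_le_iff [Fintype V] (G : SimpleGraph V) (k : ℕ) :
    bdim G ≤ k ↔ ∃ f : V → ℕ, IsResolvingBroadcast G f ∧ ∑ v, f v ≤ k := by
  constructor
  · intro h
    have hne : {c : ℕ | ∃ f : V → ℕ, IsResolvingBroadcast G f ∧ ∑ v, f v = c}.Nonempty :=
      ⟨_, _, isResolvingBroadcast_one G, rfl⟩
    obtain ⟨f, hf, hs⟩ := Nat.sInf_mem hne
    exact ⟨f, hf, by rw [hs]; exact h⟩
  · rintro ⟨f, hf, hs⟩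
    exact le_trans (Nat.sInf_le ⟨f, hf, rfl⟩) hs

lemma adim_le_iff [Fintype V] (G : SimpleGraph V) (k : ℕ) :
    adim G ≤ k ↔ ∃ f : V → ℕ, (∀ v, f v ≤ 1) ∧ IsResolvingBroadcast G f ∧ ∑ v, f v ≤ k := by
  constructor
  · intro h
    have hne : {c : ℕ | ∃ f : V → ℕ, (∀ v, f v ≤ 1) ∧ IsResolvingBroadcast G f ∧
        ∑ v, f v = c}.Nonempty :=
      ⟨_, _, fun _ => le_rfl, isResolvingBroadcast_one G, rfl⟩
    obtain ⟨f, hf, hf2, hs⟩ := Nat.sInf_mem hne
    exact ⟨f, hf, hf2, by rw [hs]; exact h⟩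
  · rintro ⟨f, hf, hf2, hs⟩
    exact le_trans (Nat.sInf_le ⟨f, hf, hf2, rfl⟩) hs

lemma mdim_le_iff [Fintype V] (G : SimpleGraph V) (k : ℕ) :
    mdim G ≤ k ↔ ∃ S : Finset V, (∀ x y : V, x ≠ y → ∃ z ∈ S, G.edist x z ≠ G.edist y z) ∧
      S.card ≤ k := by
  constructor
  · intro h
    have hne : {c : ℕ | ∃ S : Finset V, (∀ x y : V, x ≠ y → ∃ z ∈ S, G.edist x z ≠ G.edist y z) ∧
        S.card = c}.Nonempty := by
      refine ⟨_, Finset.univ, ?_, rfl⟩
      intro x y hxy
      refine ⟨x, Finset.mem_univ _, ?_⟩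
      rw [SimpleGraph.edist_self]
      intro h
      exact hxy (SimpleGraph.edist_eq_zero_iff.1 h.symm).symm
    obtain ⟨f, hf, hs⟩ := Nat.sInf_mem hne
    exact ⟨f, hf, by rw [hs]; exact h⟩
  · rintro ⟨f, hf, hs⟩
    exact le_trans (Nat.sInf_le ⟨f, hf, rfl⟩) hs

lemma edist_iso {W : Type} {G : SimpleGraph V} {G' : SimpleGraph W} (e : G ≃g G') (a b : V) :
    G'.edist (e a) (e b) = G.edist a b := by
  apply le_antisymm
  · by_cases h : G.edist a b = ⊤
    · rw [h]; exact le_top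
    · obtain ⟨p, hp⟩ := SimpleGraph.exists_walk_of_edist_ne_top h
      rw [← hp, ← SimpleGraph.Walk.length_map e.toHom p]
      exact SimpleGraph.edist_le _
  · by_cases h : G'.edist (e a) (e b) = ⊤
    · rw [h]; exact le_top
    · obtain ⟨p, hp⟩ := SimpleGraph.exists_walk_of_edist_ne_top h
      have h2 : G.edist (e.symm (e a)) (e.symm (e b)) ≤ (p.map e.symm.toHom).length :=
        SimpleGraph.edist_le _
      rw [SimpleGraph.Walk.length_map, hp] at h2
      simpa using h2

lemma IsResolvingBroadcast.of_iso {W : Type} {G : SimpleGraph V} {G' : SimpleGraph W}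
    (e : G ≃g G') {f : W → ℕ} (hf : IsResolvingBroadcast G' f) :
    IsResolvingBroadcast G (fun v => f (e v)) := by
  intro x y hxy
  obtain ⟨z, hz, hne⟩ := hf (e x) (e y) (fun h => hxy (e.injective h))
  refine ⟨e.symm z, ?_, ?_⟩
  · simpa using hz
  · have h1 := edist_iso e x (e.symm z)
    have h2 := edist_iso e y (e.symm z)
    rw [RelIso.apply_symm_apply] at h1 h2
    simp only [RelIso.apply_symm_apply]
    rw [← h1, ← h2]
    exact hne

lemma bdim_iso_le [Fintype V] {W : Type} [Fintype W] {G : SimpleGraph V} {G' : SimpleGraph W}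
    (e : G ≃g G') : bdim G ≤ bdim G' := by
  rw [bdim_le_iff]
  obtain ⟨f, hf, hs⟩ := (bdim_le_iff G' _).1 le_rfl
  exact ⟨_, hf.of_iso e, (Equiv.sum_comp e.toEquiv f).trans_le hs⟩

lemma bdim_iso [Fintype V] {W : Type} [Fintype W] {G : SimpleGraph V} {G' : SimpleGraph W}
    (e : G ≃g G') : bdim G = bdim G' := le_antisymm (bdim_iso_le e) (bdim_iso_le e.symm)

lemma adim_iso_le [Fintype V] {W : Type} [Fintype W] {G : SimpleGraph V} {G' : SimpleGraph W}
    (e : G ≃g G') : adim G ≤ adim G' := by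
  rw [adim_le_iff]
  obtain ⟨f, hf1, hf, hs⟩ := (adim_le_iff G' _).1 le_rfl
  exact ⟨_, fun v => hf1 (e v), hf.of_iso e, (Equiv.sum_comp e.toEquiv f).trans_le hs⟩

lemma adim_iso [Fintype V] {W : Type} [Fintype W] {G : SimpleGraph V} {G' : SimpleGraph W}
    (e : G ≃g G') : adim G = adim G' := le_antisymm (adim_iso_le e) (adim_iso_le e.symm)

lemma mdim_iso_le [Fintype V] {W : Type} [Fintype W] {G : SimpleGraph V} {G' : SimpleGraph W}
    (e : G ≃g G') : mdim G ≤ mdim G' := by
  rw [mdim_le_iff]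
  obtain ⟨S, hf, hs⟩ := (mdim_le_iff G' _).1 le_rfl
  refine ⟨S.map e.symm.toEquiv.toEmbedding, ?_, by rwa [Finset.card_map]⟩
  intro x y hxy
  obtain ⟨z, hz, hne⟩ := hf (e x) (e y) (fun h => hxy (e.injective h))
  refine ⟨e.symm z, Finset.mem_map.2 ⟨z, hz, rfl⟩, ?_⟩
  have h1 := edist_iso e x (e.symm z)
  have h2 := edist_iso e y (e.symm z)
  rw [RelIso.apply_symm_apply] at h1 h2
  rw [← h1, ← h2]
  exact hne

lemma mdim_iso [Fintype V] {W : Type} [Fintype W] {G : SimpleGraph V} {G' : SimpleGraph W}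
    (e : G ≃g G') : mdim G = mdim G' := le_antisymm (mdim_iso_le e) (mdim_iso_le e.symm)

/-! ### Separation lemmas -/

variable {G : SimpleGraph V}

lemma one_le_edist {a b : V} (h : a ≠ b) : 1 ≤ G.edist a b := by
  rw [Order.one_le_iff_ne_zero]
  exact fun h2 => h (SimpleGraph.edist_eq_zero_iff.1 h2)

lemma two_le_edist {a b : V} (h : a ≠ b) (h2 : ¬ G.Adj a b) : 2 ≤ G.edist a b := by
  have h3 : G.edist a b ≠ 1 := fun h => h2 (SimpleGraph.edist_eq_one_iff_adj.1 h)
  have h5 := one_le_edist (G := G) h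
  have h6 : 1 < G.edist a b := lt_of_le_of_ne h5 (Ne.symm h3)
  have := Order.add_one_le_of_lt h6
  rwa [one_add_one_eq_two] at this

lemma three_le_edist {a b : V} (h : a ≠ b) (h2 : ¬ G.Adj a b)
    (h3 : ∀ c, G.Adj a c → G.Adj c b → False) : 3 ≤ G.edist a b := by
  by_cases htop : G.edist a b = ⊤
  · rw [htop]; exact le_top
  obtain ⟨p, hp⟩ := SimpleGraph.exists_walk_of_edist_ne_top htop
  rw [← hp]
  have : 3 ≤ p.length := by
    cases p with
    | nil => exact absurd rfl h
    | cons hadj q =>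
      cases q with
      | nil => exact absurd hadj h2
      | cons hadj2 r =>
        cases r with
        | nil => exact absurd hadj2 (fun h4 => h3 _ hadj h4)
        | cons _ s => simp only [SimpleGraph.Walk.length_cons]; omega
  exact_mod_cast this

lemma edist_eq_two {a b : V} (h : a ≠ b) (h2 : ¬ G.Adj a b) (c : V) (hac : G.Adj a c)
    (hcb : G.Adj c b) : G.edist a b = 2 := by
  apply le_antisymm _ (two_le_edist h h2)
  have := SimpleGraph.edist_le (SimpleGraph.Walk.cons hac (SimpleGraph.Walk.cons hcb .nil))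
  simpa using this

lemma edist_eq_three {a b : V} (h : a ≠ b) (h2 : ¬ G.Adj a b)
    (h3 : ∀ c, G.Adj a c → G.Adj c b → False) (c d : V) (hac : G.Adj a c)
    (hcd : G.Adj c d) (hdb : G.Adj d b) : G.edist a b = 3 := by
  apply le_antisymm _ (three_le_edist h h2 h3)
  have := SimpleGraph.edist_le (SimpleGraph.Walk.cons hac
    (SimpleGraph.Walk.cons hcd (SimpleGraph.Walk.cons hdb .nil)))
  simpa using this

/-- `z` with radius `i` separates `x` and `y`. -/
def Sep (G : SimpleGraph V) (i : ℕ) (z x y : V) : Prop :=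
  min (G.edist x z) ((i : ℕ∞) + 1) ≠ min (G.edist y z) ((i : ℕ∞) + 1)

lemma Sep.symm {i : ℕ} {z x y : V} (h : Sep G i z x y) : Sep G i z y x := Ne.symm h

lemma sep_self {i : ℕ} {x y : V} (h : x ≠ y) : Sep G i x x y := by
  unfold Sep
  rw [SimpleGraph.edist_self]
  intro h2
  have h3 : min (0 : ℕ∞) ((i : ℕ∞) + 1) = 0 := min_eq_left (zero_le)
  rw [h3] at h2
  have h4 : (1 : ℕ∞) ≤ min (G.edist y x) ((i : ℕ∞) + 1) := by
    apply le_min (one_le_edist h.symm)
    exact le_add_self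
  rw [← h2] at h4
  exact absurd h4 (by norm_num)

lemma sep_adj {i : ℕ} (hi : 0 < i) {z x y : V} (h1 : G.Adj x z) (h2 : ¬ G.Adj y z) :
    Sep G i z x y := by
  by_cases hyz : y = z
  · subst hyz
    exact (sep_self h1.ne').symm
  · unfold Sep
    rw [SimpleGraph.edist_eq_one_iff_adj.2 h1]
    have h3 : min (1 : ℕ∞) ((i : ℕ∞) + 1) = 1 := min_eq_left (le_add_self)
    rw [h3]
    intro h4
    have h5 : (2 : ℕ∞) ≤ min (G.edist y z) ((i : ℕ∞) + 1) := by
      apply le_min (two_le_edist hyz h2)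
      have : (1 : ℕ∞) ≤ (i : ℕ∞) := by exact_mod_cast hi
      calc (2 : ℕ∞) = 1 + 1 := one_add_one_eq_two.symm
        _ ≤ (i : ℕ∞) + 1 := by gcongr
    rw [← h4] at h5
    exact absurd h5 (by norm_num)

lemma not_sep_of_eq {i : ℕ} {z x y : V} (h : G.edist x z = G.edist y z) : ¬ Sep G i z x y := by
  unfold Sep
  rw [h]
  exact fun h2 => h2 rfl

lemma not_sep_one {z x y : V} (h1 : x ≠ z) (h2 : y ≠ z) (h3 : G.Adj x z ↔ G.Adj y z) :
    ¬ Sep G 1 z x y := by
  unfold Sep
  intro h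
  apply h
  by_cases h4 : G.Adj x z
  · rw [SimpleGraph.edist_eq_one_iff_adj.2 h4, SimpleGraph.edist_eq_one_iff_adj.2 (h3.1 h4)]
  · have h5 : ¬ G.Adj y z := fun h6 => h4 (h3.2 h6)
    have e : ((1 : ℕ) : ℕ∞) + 1 = 2 := by norm_num
    rw [e, min_eq_right (two_le_edist h1 h4), min_eq_right (two_le_edist h2 h5)]

/-- Twins have the same distances to all other vertices. -/
lemma edist_twins {u v : V} (h : ∀ c, c ≠ u → c ≠ v → (G.Adj u c ↔ G.Adj v c)) {z : V}
    (hu : u ≠ z) (hv : v ≠ z) : G.edist u z = G.edist v z := by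
  classical
  have key : ∀ a b : V, G.Adj (Equiv.swap u v a) (Equiv.swap u v b) ↔ G.Adj a b := by
    intro a b
    by_cases hau : a = u
    · subst hau
      by_cases hbu : b = a
      · subst hbu; simp
      · by_cases hbv : b = v
        · subst hbv; simp [SimpleGraph.adj_comm]
        · rw [Equiv.swap_apply_left, Equiv.swap_apply_of_ne_of_ne hbu hbv]
          exact (h b hbu hbv).symm
    · by_cases hav : a = v
      · subst hav
        by_cases hbu : b = u
        · subst hbu; simp [SimpleGraph.adj_comm]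
        · by_cases hbv : b = a
          · subst hbv; simp
          · rw [Equiv.swap_apply_right, Equiv.swap_apply_of_ne_of_ne hbu hbv]
            exact h b hbu hbv
      · rw [Equiv.swap_apply_of_ne_of_ne hau hav]
        by_cases hbu : b = u
        · subst hbu
          rw [Equiv.swap_apply_left, SimpleGraph.adj_comm, SimpleGraph.adj_comm _ a b]
          exact (h a hau hav).symm
        · by_cases hbv : b = v
          · subst hbv
            rw [Equiv.swap_apply_right, SimpleGraph.adj_comm, SimpleGraph.adj_comm _ a b]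
            exact h a hau hav
          · rw [Equiv.swap_apply_of_ne_of_ne hbu hbv]
  let e : G ≃g G := ⟨Equiv.swap u v, fun {a b} => key a b⟩
  have h1 := edist_iso e u z
  have h2 : e u = v := Equiv.swap_apply_left u v
  have h3 : e z = z := Equiv.swap_apply_of_ne_of_ne hu.symm hv.symm
  rw [h2, h3] at h1
  exact h1.symm

end general

end Pool.Agent.H79.Bdim
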