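import Pool.Agent.H79.BdimClique
import Pool.Agent.H83.RBWord

/-!
# Broadcast dimension: the word computed by the reduction
-/

set_option autoImplicit false

namespace Pool.Agent.H79.Bdim

open Pool.Agent.H83 Pool.Agent.H83.CSPRed

/-! ### The encoding of instances is injective -/

theorem unary_append_inj {a b : ℕ} {u v : List Bool}
    (h : Bdim.unary a ++ u = Bdim.unary b ++ v) : a = b ∧ u = v :=
  Pool.Agent.H83.unary_append_inj h

theorem encode_injective {n n' k k' : ℕ} {G : SimpleGraph (Fin n)} {G' : SimpleGraph (Fin n')}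
    (h : encode n k G = encode n' k' G') : k = k' ∧ bdim G = bdim G' := by
  classical
  unfold encode at h
  obtain ⟨rfl, h'⟩ := unary_append_inj h
  obtain ⟨rfl, h''⟩ := unary_append_inj h'
  refine ⟨rfl, ?_⟩
  have h1 := flatMap_pair_inj (c := n) (by intro i; simp) (by intro i; simp) h''
  have h2 : G = G' := by
    ext u v
    have h3 := h1 u (List.mem_finRange u)
    have h4 := List.map_inj_left.1 h3 v (List.mem_finRange v)
    simpa using h4
  rw [h2]

theorem encode_mem_iff (n k : ℕ) (G : SimpleGraph (Fin n)) :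
    encode n k G ∈ BroadcastDim ↔ bdim G ≤ k := by
  constructor
  · rintro ⟨n', k', G', h, hk⟩
    obtain ⟨rfl, h2⟩ := encode_injective h
    rw [← h2]; exact hk
  · intro h; exact ⟨n, k, G, rfl, h⟩

/-! ### Boolean adjacency -/

/-- Adjacency of two vertices of the graph with edge list `es`. -/
def clB (es : List (ℕ × ℕ)) (i j : ℕ) : Bool :=
  es.any (fun e => (decide (e.1 = i) && decide (e.2 = j)) || (decide (e.1 = j) && decide (e.2 = i)))

/-- Relevant pairs. -/
def relB (M : ℕ) (es : List (ℕ × ℕ)) (p : ℕ × ℕ) : Bool :=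
  decide (p.1 < M) && (decide (p.2 < M) && (!(decide (p.1 = p.2)) && !(clB es p.1 p.2)))

/-- Equality of pairs. -/
def eqB (p q : ℕ × ℕ) : Bool := decide (p.1 = q.1) && decide (p.2 = q.2)

/-- Incidence. -/
def incB (M : ℕ) (es : List (ℕ × ℕ)) (p q : ℕ × ℕ) : Bool :=
  (relB M es p && (eqB q (p.1, p.1) || eqB q (p.2, p.2))) ||
  (!(relB M es p) && eqB q (M + 1, M + 1))

/-- The number is `c` or `c+1`. -/
def two (c b : ℕ) : Bool := decide (b = c) || decide (b = c + 1)

/-- A code for a vertex: a tag and two pairs. -/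
abbrev Code := ℕ × (ℕ × ℕ) × (ℕ × ℕ)

/-- One half of the adjacency, on codes. -/
def halfB (M : ℕ) (es : List (ℕ × ℕ)) (v w : Code) : Bool :=
  ((two 0 v.1 && two 0 w.1) && eqB v.2.2 w.2.2) ||
  (((two 0 v.1 && decide (w.1 = 2)) && eqB v.2.2 w.2.2) ||
  (((two 3 v.1 && two 3 w.1) && (eqB v.2.1 w.2.1 && eqB v.2.2 w.2.2)) ||
  (((two 3 v.1 && decide (w.1 = 2)) && (eqB v.2.1 w.2.1 && eqB v.2.2 w.2.2)) ||
  (((decide (v.1 = 2) && decide (w.1 = 5)) && (eqB v.2.1 w.2.1 && incB M es v.2.1 v.2.2)) ||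
  (((two 5 v.1 && two 7 w.1) && eqB v.2.1 w.2.1) ||
  (((two 7 v.1 && two 7 w.1) && eqB v.2.1 w.2.1) ||
  ((two 9 v.1 && two 9 w.1) ||
  ((two 9 v.1 && decide (w.1 = 2)) ||
  (two 9 v.1 && two 5 w.1)))))))))

/-- Adjacency, on codes. -/
def adjB (M : ℕ) (es : List (ℕ × ℕ)) (v w : Code) : Bool :=
  !(decide (v.1 = w.1) && (eqB v.2.1 w.2.1 && eqB v.2.2 w.2.2)) &&
    (halfB M es v w || halfB M es w v)

/-- The code of a pair. -/
def np {m : ℕ} (p : Fin m × Fin m) : ℕ × ℕ := (p.1.val, p.2.val)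

/-- The number of a Boolean. -/
def nb (c : ℕ) (b : Bool) : ℕ := if b = true then c + 1 else c

open Vx in
/-- The code of a vertex. -/
def num {m : ℕ} : Vx (Fin m × Fin m) → Code
  | s b q => (nb 0 b, (0, 0), np q)
  | y p q => (2, np p, np q)
  | a b p q => (nb 3 b, np p, np q)
  | x b p => (nb 5 b, np p, (0, 0))
  | t b p => (nb 7 b, np p, (0, 0))
  | w b => (nb 9 b, (0, 0), (0, 0))

/-- The clique graph. -/
def clA (es : List (ℕ × ℕ)) (i j : ℕ) : Prop := clB es i j = true

theorem relB_iff {M : ℕ} {es : List (ℕ × ℕ)} (p : Fin (M+2) × Fin (M+2)) :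
    relC M (clA es) p ↔ relB M es (np p) = true := by
  unfold relC relB clA np
  simp only [Bool.and_eq_true, decide_eq_true_eq, Bool.not_eq_true', decide_eq_false_iff_not,
    Bool.not_eq_true, ne_eq, Fin.ext_iff]

theorem eqB_iff {m : ℕ} (p q : Fin m × Fin m) : p = q ↔ eqB (np p) (np q) = true := by
  unfold eqB np
  simp only [Bool.and_eq_true, decide_eq_true_eq, Prod.ext_iff, Fin.ext_iff]

theorem incB_iff {M : ℕ} {es : List (ℕ × ℕ)} (p q : Fin (M+2) × Fin (M+2)) :
    incC M (clA es) p q ↔ incB M es (np p) (np q) = true := by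
  unfold incC incB
  rw [relB_iff, eqB_iff q (p.1, p.1), eqB_iff q (p.2, p.2),
    eqB_iff q (Fin.last (M+1), Fin.last (M+1))]
  simp only [Bool.or_eq_true, Bool.and_eq_true, Bool.not_eq_true', Bool.not_eq_true]
  rfl

theorem eqB_self (p : ℕ × ℕ) : eqB p p = true := by simp [eqB]

theorem halfB_iff {M : ℕ} {es : List (ℕ × ℕ)} (v w : Vx (Fin (M+2) × Fin (M+2))) :
    half (incC M (clA es)) v w ↔ halfB M es (num v) (num w) = true := by
  cases v <;> cases w <;> simp only [half, halfB, num, incB_iff, eqB_iff, eqB_self] <;>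
    simp [two, nb] <;> (try split_ifs) <;> simp_all

theorem num_ne_iff {m : ℕ} (v w : Vx (Fin m × Fin m)) : v ≠ w ↔
    (!(decide ((num v).1 = (num w).1) && (eqB (num v).2.1 (num w).2.1 &&
      eqB (num v).2.2 (num w).2.2))) = true := by
  have h1 : ∀ c b b', nb c b = nb c b' ↔ b = b' := by
    intro c b b'
    cases b <;> cases b' <;> simp [nb]
  have h2 : ∀ c b, nb c b = c ∨ nb c b = c + 1 := by
    intro c b; cases b <;> simp [nb]
  cases v <;> cases w <;> simp only [num, ne_eq, Bool.not_eq_true', Bool.and_eq_false_iff,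
    decide_eq_false_iff_not, h1, eqB_self, reduceCtorEq, not_false_eq_true, true_iff,
    Vx.s.injEq, Vx.y.injEq, Vx.a.injEq, Vx.x.injEq, Vx.t.injEq, Vx.w.injEq, eqB_iff,
    not_and_or, Bool.not_eq_true, or_false, false_or, Bool.true_eq_false, not_true_eq_false]
  all_goals first
    | (refine Or.inl (decide_eq_false ?_); simp only [nb]; split_ifs <;> simp; done)
    | (refine Or.inl ?_; simp only [nb]; split_ifs <;> simp; done)

theorem adjB_iff {M : ℕ} {es : List (ℕ × ℕ)} (v w : Vx (Fin (M+2) × Fin (M+2))) :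
    (gad (incC M (clA es))).Adj v w ↔ adjB M es (num v) (num w) = true := by
  rw [gad_adj, halfB_iff, halfB_iff, num_ne_iff]
  unfold adjB
  rw [Bool.and_eq_true, Bool.or_eq_true]

theorem num_injective {m : ℕ} : Function.Injective (num (m := m)) := by
  intro v w h
  by_contra hne
  have := (num_ne_iff v w).1 hne
  rw [h] at this
  simp [eqB_self] at this

/-! ### The list of vertices -/

/-- The pairs of numbers less than `m`. -/
def pl (m : ℕ) : List (ℕ × ℕ) :=
  (List.range m).flatMap (fun i => (List.range m).map (fun j => (i, j)))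

theorem mem_pl {m : ℕ} (e : ℕ × ℕ) : e ∈ pl m ↔ ∃ p : Fin m × Fin m, np p = e := by
  unfold pl np
  simp only [List.mem_flatMap, List.mem_range, List.mem_map]
  constructor
  · rintro ⟨i, hi, j, hj, rfl⟩
    exact ⟨(⟨i, hi⟩, ⟨j, hj⟩), rfl⟩
  · rintro ⟨⟨i, j⟩, rfl⟩
    exact ⟨i.val, i.isLt, j.val, j.isLt, rfl⟩

theorem length_pl (m : ℕ) : (pl m).length = m * m := by
  unfold pl
  simp

/-- The vertices. -/
def vlist (M : ℕ) : List Code :=
  [(9, (0, 0), (0, 0)), (10, (0, 0), (0, 0))] ++
  ((pl (M + 2)).flatMap (fun p => [(0, (0, 0), p), (1, (0, 0), p), (5, p, (0, 0)),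
    (6, p, (0, 0)), (7, p, (0, 0)), (8, p, (0, 0))]) ++
  (pl (M + 2)).flatMap (fun p => (pl (M + 2)).flatMap (fun q => [(2, p, q), (3, p, q),
    (4, p, q)])))

theorem length_vlist (M : ℕ) : (vlist M).length =
    3 * ((M+2) * (M+2)) ^ 2 + 6 * ((M+2) * (M+2)) + 2 := by
  unfold vlist
  simp only [List.length_append, List.length_flatMap, List.length_cons, List.length_nil,
    List.map_const', List.sum_replicate, length_pl, smul_eq_mul]
  ring

theorem mem_vlist {M : ℕ} (c : Code) : c ∈ vlist M ↔ ∃ v : Vx (Fin (M+2) × Fin (M+2)),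
    num v = c := by
  unfold vlist
  simp only [List.mem_append, List.mem_cons, List.not_mem_nil, or_false, List.mem_flatMap]
  constructor
  · rintro ((rfl | rfl) | (⟨e, he, h⟩ | ⟨e, he, e', he', h⟩))
    · exact ⟨Vx.w false, rfl⟩
    · exact ⟨Vx.w true, rfl⟩
    · obtain ⟨p, rfl⟩ := (mem_pl e).1 he
      rcases h with rfl | rfl | rfl | rfl | rfl | rfl
      · exact ⟨Vx.s false p, rfl⟩
      · exact ⟨Vx.s true p, rfl⟩
      · exact ⟨Vx.x false p, rfl⟩
      · exact ⟨Vx.x true p, rfl⟩
      · exact ⟨Vx.t false p, rfl⟩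
      · exact ⟨Vx.t true p, rfl⟩
    · obtain ⟨p, rfl⟩ := (mem_pl e).1 he
      obtain ⟨q, rfl⟩ := (mem_pl e').1 he'
      rcases h with rfl | rfl | rfl
      · exact ⟨Vx.y p q, rfl⟩
      · exact ⟨Vx.a false p q, rfl⟩
      · exact ⟨Vx.a true p q, rfl⟩
  · rintro ⟨v, rfl⟩
    cases v with
    | s b q =>
      refine Or.inr (Or.inl ⟨np q, (mem_pl _).2 ⟨q, rfl⟩, ?_⟩)
      cases b <;> simp [num, nb]
    | y p q =>
      refine Or.inr (Or.inr ⟨np p, (mem_pl _).2 ⟨p, rfl⟩, np q, (mem_pl _).2 ⟨q, rfl⟩, ?_⟩)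
      simp [num]
    | a b p q =>
      refine Or.inr (Or.inr ⟨np p, (mem_pl _).2 ⟨p, rfl⟩, np q, (mem_pl _).2 ⟨q, rfl⟩, ?_⟩)
      cases b <;> simp [num, nb]
    | x b p =>
      refine Or.inr (Or.inl ⟨np p, (mem_pl _).2 ⟨p, rfl⟩, ?_⟩)
      cases b <;> simp [num, nb]
    | t b p =>
      refine Or.inr (Or.inl ⟨np p, (mem_pl _).2 ⟨p, rfl⟩, ?_⟩)
      cases b <;> simp [num, nb]
    | w b =>
      refine Or.inl ?_
      cases b <;> simp [num, nb]

theorem exists_equiv (M : ℕ) : ∃ e : Vx (Fin (M+2) × Fin (M+2)) ≃ Fin (vlist M).length,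
    ∀ v, (vlist M).get (e v) = num v := by
  have h1 : ∀ i : Fin (vlist M).length, ∃ v : Vx (Fin (M+2) × Fin (M+2)),
      num v = (vlist M).get i := fun i => (mem_vlist _).1 (List.get_mem _ i)
  choose g hg using h1
  have hsurj : Function.Surjective g := by
    intro v
    obtain ⟨i, hi⟩ := List.mem_iff_get.1 ((mem_vlist (num v)).2 ⟨v, rfl⟩)
    exact ⟨i, num_injective ((hg i).trans hi)⟩
  have hcard : Fintype.card (Fin (vlist M).length) = Fintype.card (Vx (Fin (M+2) × Fin (M+2))) := by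
    rw [Fintype.card_fin, length_vlist, card_Vx]
    simp
  have hb : Function.Bijective g :=
    (Fintype.bijective_iff_surjective_and_card g).2 ⟨hsurj, hcard⟩
  refine ⟨(Equiv.ofBijective g hb).symm, ?_⟩
  intro v
  rw [← hg]
  congr 1
  exact (Equiv.ofBijective g hb).apply_symm_apply v

/-! ### The word -/

/-- The bound. -/
def bound (M k : ℕ) : ℕ :=
  (((M+2)*(M+2) + 1) * ((M+2)*(M+2) + 1) + M + 1) - k

/-- The word of the reduction, for a graph on `M` vertices given by its list of edges. -/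
def gword (M : ℕ) (es : List (ℕ × ℕ)) (k : ℕ) : List Bool :=
  unary' (vlist M).length ++ (unary' (bound M k) ++
    (vlist M).flatMap (fun u => (vlist M).map (fun v => adjB M es u v)))

theorem gword_eq (M : ℕ) (es : List (ℕ × ℕ)) (k : ℕ) : ∃ G : SimpleGraph (Fin (vlist M).length),
    gword M es k = encode (vlist M).length (bound M k) G ∧
    Nonempty (G ≃g gad (incC M (clA es))) := by
  classical
  obtain ⟨e, he⟩ := exists_equiv M
  refine ⟨(gad (incC M (clA es))).comap e.symm.toEmbedding, ?_,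
    ⟨SimpleGraph.Iso.comap e.symm _⟩⟩
  unfold gword encode
  have e1 : ∀ m, unary' m = Bdim.unary m := unary'_eq
  rw [e1, e1]
  congr 2
  have h1 : (vlist M) = (List.finRange (vlist M).length).map (vlist M).get :=
    (List.map_get_finRange (vlist M)).symm
  conv_lhs => rw [h1]
  rw [List.flatMap_map]
  congr 1
  funext u
  rw [List.map_map]
  congr 1
  funext v
  simp only [Function.comp]
  rw [Bool.eq_iff_iff, decide_eq_true_eq, SimpleGraph.comap_adj]
  have h2 := adjB_iff (es := es) (e.symm u) (e.symm v)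
  rw [← he, ← he, Equiv.apply_symm_apply, Equiv.apply_symm_apply] at h2
  exact h2.symm

/-- The word computed by the reduction. -/
def redWord (C : CSP) : List Bool :=
  gword (verts C).length (edges (verts C)) C.length

theorem hasClique_iff (vs : List (ℕ × PA)) (k : ℕ) :
    (∃ S : Finset (Fin vs.length), S.card = k ∧ ∀ u ∈ S, ∀ v ∈ S, u < v → (u, v) ∈ E vs) ↔
      HasClique vs.length (clA (edges vs)) k := by
  classical
  have hcl : ∀ i j : Fin vs.length, clA (edges vs) i.val j.val ↔ (i, j) ∈ E vs ∨ (j, i) ∈ E vs := by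
    intro i j
    unfold clA clB
    simp only [List.any_eq_true, Bool.or_eq_true, Bool.and_eq_true, decide_eq_true_eq]
    have hmem : ∀ a b : Fin vs.length, (a.val, b.val) ∈ edges vs ↔ (a, b) ∈ E vs := by
      intro a b
      rw [mem_edges]
      simp only [E, Finset.mem_filter, Finset.mem_univ, true_and]
      constructor
      · rintro ⟨_, _, h1, h2⟩; exact ⟨h1, h2⟩
      · rintro ⟨h1, h2⟩; exact ⟨a.isLt, b.isLt, h1, h2⟩
    rw [← hmem, ← hmem]
    constructor
    · rintro ⟨⟨a, b⟩, he, h | h⟩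
      · obtain ⟨rfl, rfl⟩ := h; exact Or.inl he
      · obtain ⟨rfl, rfl⟩ := h; exact Or.inr he
    · rintro (h | h)
      · exact ⟨_, h, Or.inl ⟨rfl, rfl⟩⟩
      · exact ⟨_, h, Or.inr ⟨rfl, rfl⟩⟩
  constructor
  · rintro ⟨S, hS1, hS2⟩
    refine ⟨S.image Fin.val, ?_, ?_, ?_⟩
    · intro a ha
      obtain ⟨u, _, rfl⟩ := Finset.mem_image.1 ha
      exact u.isLt
    · rw [Finset.card_image_of_injective _ Fin.val_injective, hS1]
    · intro a ha b hb hab
      obtain ⟨u, hu, rfl⟩ := Finset.mem_image.1 ha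
      obtain ⟨v, hv, rfl⟩ := Finset.mem_image.1 hb
      rw [hcl]
      have huv : u ≠ v := fun h => hab (by rw [h])
      rcases lt_or_gt_of_ne huv with h | h
      · exact Or.inl (hS2 u hu v hv h)
      · exact Or.inr (hS2 v hv u hu h)
  · rintro ⟨K, hK1, hK2, hK3⟩
    refine ⟨Finset.univ.filter (fun u : Fin vs.length => u.val ∈ K), ?_, ?_⟩
    · rw [← hK2]
      apply Finset.card_bij (fun u _ => u.val)
      · intro u hu; simpa using hu
      · intro u _ v _ h; exact Fin.ext h
      · intro a ha; exact ⟨⟨a, hK1 a ha⟩, by simpa using ha, rfl⟩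
    · intro u hu v hv huv
      simp only [Finset.mem_filter, Finset.mem_univ, true_and] at hu hv
      have h1 := hK3 _ hu _ hv (fun h => (ne_of_lt huv) (Fin.ext h))
      rw [hcl] at h1
      rcases h1 with h1 | h1
      · exact h1
      · exfalso
        simp only [E, Finset.mem_filter, Finset.mem_univ, true_and] at h1
        exact absurd h1.1 (not_lt.2 huv.le)

theorem redWord_spec (C : CSP) (hC : 2 ≤ C.length) :
    ∃ (d n k : ℕ) (G : SimpleGraph (Fin n)), redWord C = encode n k G ∧ n + 1 = 3 * d ^ 2 ∧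
      G.Connected ∧ mdim G = d ^ 2 ∧ adim G = d ^ 2 + d - 1 ∧ (C.Sat ↔ bdim G ≤ k) := by
  obtain ⟨G, h1, ⟨e⟩⟩ := gword_eq (verts C).length (edges (verts C)) C.length
  have hcard : Fintype.card (Fin ((verts C).length+2) × Fin ((verts C).length+2)) =
    ((verts C).length+2)*((verts C).length+2) := by simp
  refine ⟨((verts C).length+2)*((verts C).length+2) + 1, _, _, G, h1, ?_, ?_, ?_, ?_, ?_⟩
  · rw [length_vlist]; ring
  · rw [e.connected_iff]
    exact gad_connected
  · rw [mdim_iso e, mdim_gad (incC_exists _ _), hcard]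
  · rw [adim_iso e, adim_gad, hcard]
    omega
  · rw [sat_iff C hC, hasClique_iff, clique_iff, bdim_iso e]
    unfold bound
    rw [pow_two]

/-! ### Polynomial time -/

section poly
open Pool.Agent.H83.Poly
variable {α : Type} [Enc α]

theorem clB_poly {es : α → List (ℕ × ℕ)} {i j : α → ℕ} (hes : Poly es) (hi : Poly i)
    (hj : Poly j) : Poly (fun a => clB (es a) (i a) (j a)) := by
  unfold clB
  refine any hes ?_
  have hi' := hi.comp (fst (α := α) (β := ℕ × ℕ))
  have hj' := hj.comp (fst (α := α) (β := ℕ × ℕ))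
  have e1 := fst' (snd (α := α) (β := ℕ × ℕ))
  have e2 := snd' (snd (α := α) (β := ℕ × ℕ))
  exact or (and (natEq e1 hi') (natEq e2 hj')) (and (natEq e1 hj') (natEq e2 hi'))

theorem relB_poly {M : α → ℕ} {es : α → List (ℕ × ℕ)} {p : α → ℕ × ℕ} (hM : Poly M)
    (hes : Poly es) (hp : Poly p) : Poly (fun a => relB (M a) (es a) (p a)) := by
  unfold relB
  exact and (natLt (fst' hp) hM) (and (natLt (snd' hp) hM)
    (and (not (natEq (fst' hp) (snd' hp))) (not (clB_poly hes (fst' hp) (snd' hp)))))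

theorem eqB_poly {p q : α → ℕ × ℕ} (hp : Poly p) (hq : Poly q) :
    Poly (fun a => eqB (p a) (q a)) := by
  unfold eqB
  exact and (natEq (fst' hp) (fst' hq)) (natEq (snd' hp) (snd' hq))

theorem incB_poly {M : α → ℕ} {es : α → List (ℕ × ℕ)} {p q : α → ℕ × ℕ} (hM : Poly M)
    (hes : Poly es) (hp : Poly p) (hq : Poly q) :
    Poly (fun a => incB (M a) (es a) (p a) (q a)) := by
  unfold incB
  have hr := relB_poly hM hes hp
  have hM1 : Poly (fun a => M a + 1) := add hM (const 1)
  exact or (and hr (or (eqB_poly hq ((fst' hp).pair (fst' hp)))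
    (eqB_poly hq ((snd' hp).pair (snd' hp))))) (and (not hr) (eqB_poly hq (hM1.pair hM1)))

theorem two_poly (c : ℕ) {b : α → ℕ} (hb : Poly b) : Poly (fun a => two c (b a)) := by
  unfold two
  exact or (natEq hb (const c)) (natEq hb (const (c + 1)))

theorem halfB_poly {M : α → ℕ} {es : α → List (ℕ × ℕ)} {v w : α → Code} (hM : Poly M)
    (hes : Poly es) (hv : Poly v) (hw : Poly w) :
    Poly (fun a => halfB (M a) (es a) (v a) (w a)) := by
  unfold halfB
  have v1 := fst' hv
  have w1 := fst' hw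
  have v21 := fst' (snd' hv)
  have w21 := fst' (snd' hw)
  have v22 := snd' (snd' hv)
  have w22 := snd' (snd' hw)
  have e1 := eqB_poly v21 w21
  have e2 := eqB_poly v22 w22
  have y2 := natEq w1 (const 2)
  exact or (and (and (two_poly 0 v1) (two_poly 0 w1)) e2)
    (or (and (and (two_poly 0 v1) y2) e2)
    (or (and (and (two_poly 3 v1) (two_poly 3 w1)) (and e1 e2))
    (or (and (and (two_poly 3 v1) y2) (and e1 e2))
    (or (and (and (natEq v1 (const 2)) (natEq w1 (const 5)))
      (and e1 (incB_poly hM hes v21 v22)))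
    (or (and (and (two_poly 5 v1) (two_poly 7 w1)) e1)
    (or (and (and (two_poly 7 v1) (two_poly 7 w1)) e1)
    (or (and (two_poly 9 v1) (two_poly 9 w1))
    (or (and (two_poly 9 v1) y2) (and (two_poly 9 v1) (two_poly 5 w1))))))))))

theorem adjB_poly {M : α → ℕ} {es : α → List (ℕ × ℕ)} {v w : α → Code} (hM : Poly M)
    (hes : Poly es) (hv : Poly v) (hw : Poly w) :
    Poly (fun a => adjB (M a) (es a) (v a) (w a)) := by
  unfold adjB
  exact and (not (and (natEq (fst' hv) (fst' hw)) (and (eqB_poly (fst' (snd' hv)) (fst' (snd' hw)))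
    (eqB_poly (snd' (snd' hv)) (snd' (snd' hw))))))
    (or (halfB_poly hM hes hv hw) (halfB_poly hM hes hw hv))

theorem pl_poly {m : α → ℕ} (hm : Poly m) : Poly (fun a => pl (m a)) := by
  unfold pl
  exact flatMap (range hm) (map (range (hm.comp fst)) ((snd' fst).pair snd))

theorem code_poly (c : ℕ) {p q : α → ℕ × ℕ} (hp : Poly p) (hq : Poly q) :
    Poly (fun a => ((c, p a, q a) : Code)) := (const c).pair (hp.pair hq)

theorem vlist_poly {M : α → ℕ} (hM : Poly M) : Poly (fun a => vlist (M a)) := by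
  unfold vlist
  have hn : Poly (fun a => M a + 2) := add hM (const 2)
  have hpl := pl_poly hn
  refine append (const _) (append (flatMap hpl ?_) (flatMap hpl (flatMap (hpl.comp fst) ?_)))
  · have z : Poly (fun _ : α × (ℕ × ℕ) => ((0, 0) : ℕ × ℕ)) := const _
    have p := snd (α := α) (β := ℕ × ℕ)
    exact cons (code_poly 0 z p) (cons (code_poly 1 z p) (cons (code_poly 5 p z)
      (cons (code_poly 6 p z) (cons (code_poly 7 p z) (cons (code_poly 8 p z) (const []))))))
  · have p := snd' (fst (α := α × (ℕ × ℕ)) (β := ℕ × ℕ))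
    have q := snd (α := α × (ℕ × ℕ)) (β := ℕ × ℕ)
    exact cons (code_poly 2 p q) (cons (code_poly 3 p q) (cons (code_poly 4 p q) (const [])))

theorem gword_poly {M : α → ℕ} {es : α → List (ℕ × ℕ)} {k : α → ℕ} (hM : Poly M) (hes : Poly es)
    (hk : Poly k) : Poly (fun a => gword (M a) (es a) (k a)) := by
  unfold gword bound
  have hv := vlist_poly hM
  have hn : Poly (fun a => M a + 2) := add hM (const 2)
  have hn2 : Poly (fun a => (M a + 2) * (M a + 2) + 1) := add (mul hn hn) (const 1)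
  refine append (unary_poly (length hv)) (append (unary_poly (sub (add (add (mul hn2 hn2)
    hM) (const 1)) hk)) (flatMap hv (map (hv.comp fst) ?_)))
  exact adjB_poly (hM.comp (fst' fst)) (hes.comp (fst' fst)) (snd' fst) snd

theorem redWord_poly {C : α → CSP} (hC : Poly C) : Poly (fun a => redWord (C a)) := by
  unfold redWord
  have hv := verts_poly hC
  exact gword_poly (length hv) (edges_poly hv) (length hC)

end poly

end Pool.Agent.H79.Bdim
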