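import Mathlib

/-!
# A zero-dimensional decomposition of the line

We decompose `ℝ` into an exceptional set `Z1` of dimension zero and countably many pairwise
disjoint compact sets of irrational numbers.
-/

set_option autoImplicit false

open Set Filter Topology

noncomputable section

namespace Pool.Agent.H79.Pieces

/-- An enumeration of the rationals, as reals. -/
def q (n : ℕ) : ℝ := (((Denumerable.eqv ℚ).symm n : ℚ) : ℝ)

lemma exists_q (r : ℚ) : ∃ n, q n = r := ⟨Denumerable.eqv ℚ r, by simp [q]⟩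

/-- radii -/
def rad (j n : ℕ) : ℝ := (1/2) ^ ((j+1)*(n+1))

lemma rad_pos (j n : ℕ) : 0 < rad j n := by unfold rad; positivity

/-- open neighbourhoods of the rationals -/
def U (j : ℕ) : Set ℝ := ⋃ n, Metric.ball (q n) (rad j n)

lemma isOpen_U (j : ℕ) : IsOpen (U j) := isOpen_iUnion fun _ => Metric.isOpen_ball

/-- the closed sets of irrationals -/
def D (j : ℕ) : Set ℝ := (U j)ᶜ

lemma isClosed_D (j : ℕ) : IsClosed (D j) := (isOpen_U j).isClosed_compl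

lemma irrational_of_mem_D {j : ℕ} {x : ℝ} (hx : x ∈ D j) : Irrational x := by
  rintro ⟨r, hr⟩
  obtain ⟨n, hn⟩ := exists_q r
  apply hx
  refine mem_iUnion.2 ⟨n, ?_⟩
  rw [← hr, ← hn]
  exact Metric.mem_ball_self (rad_pos j n)

/-- the exceptional set -/
def Z1 : Set ℝ := ⋂ j, U j

/-- the pieces -/
def K (a : ℕ × ℕ × ℤ) : Set ℝ :=
  {x | x ∈ D a.1 ∧ (∀ i < a.1, x ∉ D i) ∧ ⌊x * (2:ℝ) ^ a.2.1⌋ = a.2.2 ∧
    (∀ i < a.1, ∀ y ∈ D i, ⌊y * (2:ℝ) ^ a.2.1⌋ ≠ a.2.2) ∧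
    (∀ m' < a.2.1, ∃ i < a.1, ∃ y ∈ D i, ⌊y * (2:ℝ) ^ m'⌋ = ⌊x * (2:ℝ) ^ m'⌋)}

lemma K_disjoint {a b : ℕ × ℕ × ℤ} {x : ℝ} (ha : x ∈ K a) (hb : x ∈ K b) : a = b := by
  obtain ⟨j, m, p⟩ := a
  obtain ⟨j', m', p'⟩ := b
  obtain ⟨ha1, ha2, ha3, ha4, ha5⟩ := ha
  obtain ⟨hb1, hb2, hb3, hb4, hb5⟩ := hb
  simp only at ha1 ha2 ha3 ha4 ha5 hb1 hb2 hb3 hb4 hb5
  have hj : j = j' := by
    rcases lt_trichotomy j j' with h | h | h
    · exact absurd ha1 (hb2 j h)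
    · exact h
    · exact absurd hb1 (ha2 j' h)
  subst hj
  have hm : m = m' := by
    rcases lt_trichotomy m m' with h | h | h
    · obtain ⟨i, hi, y, hy, hyx⟩ := hb5 m h
      exact absurd (hyx.trans ha3) (ha4 i hi y hy)
    · exact h
    · obtain ⟨i, hi, y, hy, hyx⟩ := ha5 m' h
      exact absurd (hyx.trans hb3) (hb4 i hi y hy)
  subst hm
  have hp : p = p' := ha3.symm.trans hb3
  rw [hp]

lemma floor_coarse {x y : ℝ} {m' m : ℕ} (h : m' ≤ m) (hxy : ⌊x * (2:ℝ) ^ m⌋ = ⌊y * (2:ℝ) ^ m⌋) :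
    ⌊x * (2:ℝ) ^ m'⌋ = ⌊y * (2:ℝ) ^ m'⌋ := by
  obtain ⟨k, rfl⟩ := Nat.exists_eq_add_of_le h
  have key : ∀ z : ℝ, ⌊z * (2:ℝ) ^ m'⌋ = ⌊z * (2:ℝ) ^ (m' + k)⌋ / ((2 ^ k : ℕ) : ℤ) := by
    intro z
    have := Int.mul_natCast_floor_div_cancel (n := 2 ^ k) (by positivity) (z * (2:ℝ) ^ m')
    rw [← this]
    congr 2
    push_cast
    rw [pow_add]; ring
  rw [key x, key y, hxy]

lemma abs_sub_lt_of_floor_eq {x y : ℝ} {m : ℕ} (h : ⌊x * (2:ℝ) ^ m⌋ = ⌊y * (2:ℝ) ^ m⌋) :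
    |x - y| < (1/2) ^ m := by
  have h1 := Int.abs_sub_lt_one_of_floor_eq_floor h
  rw [← sub_mul, abs_mul, abs_of_pos (by positivity : (0:ℝ) < 2 ^ m)] at h1
  rw [one_div, inv_pow]
  rwa [← lt_div_iff₀ (by positivity), one_div] at h1

lemma K_subset_D (a : ℕ × ℕ × ℤ) : K a ⊆ D a.1 := fun _ hx => hx.1

lemma K_irrational {a : ℕ × ℕ × ℤ} {x : ℝ} (hx : x ∈ K a) : Irrational x :=
  irrational_of_mem_D hx.1

lemma K_eq {a : ℕ × ℕ × ℤ} (hne : (K a).Nonempty) :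
    K a = {x | x ∈ D a.1 ∧ ⌊x * (2:ℝ) ^ a.2.1⌋ = a.2.2} := by
  obtain ⟨x₀, h1, h2, h3, h4, h5⟩ := hne
  ext x
  constructor
  · intro hx
    exact ⟨hx.1, hx.2.2.1⟩
  · rintro ⟨hx1, hx2⟩
    refine ⟨hx1, ?_, hx2, h4, ?_⟩
    · intro i hi hxi
      exact h4 i hi x hxi hx2
    · intro m' hm'
      obtain ⟨i, hi, y, hy, hyx⟩ := h5 m' hm'
      refine ⟨i, hi, y, hy, hyx.trans ?_⟩
      exact floor_coarse hm'.le (h3.trans hx2.symm)

lemma isCompact_K (a : ℕ × ℕ × ℤ) : IsCompact (K a) := by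
  rcases (K a).eq_empty_or_nonempty with h | h
  · rw [h]; exact isCompact_empty
  · rw [K_eq h]
    have heq : {x | x ∈ D a.1 ∧ ⌊x * (2:ℝ) ^ a.2.1⌋ = a.2.2} =
        Icc ((a.2.2 : ℝ) / 2 ^ a.2.1) ((a.2.2 + 1 : ℝ) / 2 ^ a.2.1) ∩ D a.1 := by
      ext x
      constructor
      · rintro ⟨h1, h2⟩
        rw [Int.floor_eq_iff] at h2
        refine ⟨⟨?_, ?_⟩, h1⟩
        · rw [div_le_iff₀ (by positivity)]; exact h2.1
        · rw [le_div_iff₀ (by positivity)]; exact h2.2.le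
      · rintro ⟨⟨h1, h2⟩, h3⟩
        refine ⟨h3, ?_⟩
        rw [Int.floor_eq_iff]
        rw [div_le_iff₀ (by positivity)] at h1
        refine ⟨h1, ?_⟩
        rw [le_div_iff₀ (by positivity)] at h2
        refine lt_of_le_of_ne h2 ?_
        intro h4
        apply irrational_of_mem_D h3
        refine ⟨((a.2.2 + 1 : ℤ) : ℚ) / 2 ^ a.2.1, ?_⟩
        push_cast
        rw [div_eq_iff (by positivity)]
        exact h4.symm
    rw [heq]
    exact isCompact_Icc.inter_right (isClosed_D _)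

lemma floor_eq_of_mem_K {a : ℕ × ℕ × ℤ} {x y : ℝ} (hx : x ∈ K a) (hy : y ∈ K a) : ⌊x⌋ = ⌊y⌋ := by
  have h := floor_coarse (x := x) (y := y) (Nat.zero_le a.2.1) (hx.2.2.1.trans hy.2.2.1.symm)
  simpa using h

lemma exists_K {x : ℝ} (hx : x ∉ Z1) : ∃ a, x ∈ K a := by
  classical
  have h1 : ∃ j, x ∈ D j := by
    simp only [Z1, mem_iInter, not_forall] at hx
    exact hx
  set j := Nat.find h1 with hj
  have hjD : x ∈ D j := Nat.find_spec h1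
  have hjmin : ∀ i < j, x ∉ D i := fun i hi => Nat.find_min h1 hi
  -- the union of the previous closed sets is closed
  have hclosed : IsClosed (⋃ i ∈ Finset.range j, D i) :=
    (Finset.range j).finite_toSet.isClosed_biUnion fun i _ => isClosed_D i
  have hxn : x ∈ (⋃ i ∈ Finset.range j, D i)ᶜ := by
    simp only [mem_compl_iff, mem_iUnion, Finset.mem_range, not_exists]
    intro i hi
    exact hjmin i hi
  obtain ⟨ε, hε, hball⟩ := Metric.isOpen_iff.1 hclosed.isOpen_compl x hxn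
  obtain ⟨m0, hm0⟩ := exists_pow_lt_of_lt_one hε (by norm_num : (1/2 : ℝ) < 1)
  have h2 : ∃ m : ℕ, ∀ i < j, ∀ y ∈ D i, ⌊y * (2:ℝ) ^ m⌋ ≠ ⌊x * (2:ℝ) ^ m⌋ := by
    refine ⟨m0, fun i hi y hy h => ?_⟩
    have h3 := abs_sub_lt_of_floor_eq h
    have h4 : y ∈ Metric.ball x ε := by
      rw [Metric.mem_ball, Real.dist_eq]; exact h3.trans hm0
    have h5 := hball h4
    apply h5
    simp only [mem_iUnion, Finset.mem_range]
    exact ⟨i, hi, hy⟩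
  set m := Nat.find h2 with hm
  have hmP := Nat.find_spec h2
  have hmmin : ∀ m' < m, ∃ i < j, ∃ y ∈ D i, ⌊y * (2:ℝ) ^ m'⌋ = ⌊x * (2:ℝ) ^ m'⌋ := by
    intro m' hm'
    have := Nat.find_min h2 hm'
    push Not at this
    exact this
  exact ⟨(j, m, ⌊x * (2:ℝ) ^ m⌋), hjD, hjmin, rfl, hmP, hmmin⟩

end Pool.Agent.H79.Pieces
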