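import Mathlib
import Pool.Agent.H79.Pieces

/-!
# The digit interleaving map
-/

set_option autoImplicit false

open Set Filter Topology

noncomputable section

namespace Pool.Agent.H79.Digits

open Pool.Agent.H79.Pieces

/-- cumulated block lengths -/
def S : ℕ → ℕ
  | 0 => 0
  | k+1 => S k + (k+1)

lemma S_formula (k : ℕ) : 2 * S k = k * k + k := by
  induction k with
  | zero => rfl
  | succ k ih => rw [S, mul_add, ih]; ring

/-- the digits -/
def dig (k : ℕ) (x : ℝ) : ℤ := ⌊x * (2:ℝ) ^ S (k+1)⌋ % ((2 ^ (k+1) : ℕ) : ℤ)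

lemma dig_nonneg (k : ℕ) (x : ℝ) : 0 ≤ dig k x := Int.emod_nonneg _ (by positivity)

lemma dig_lt (k : ℕ) (x : ℝ) : dig k x < ((2 ^ (k+1) : ℕ) : ℤ) :=
  Int.emod_lt_of_pos _ (by positivity)

lemma floor_succ (k : ℕ) (x : ℝ) :
    ⌊x * (2:ℝ) ^ S (k+1)⌋ = ((2 ^ (k+1) : ℕ) : ℤ) * ⌊x * (2:ℝ) ^ S k⌋ + dig k x := by
  have h1 := Int.mul_natCast_floor_div_cancel (n := 2 ^ (k+1)) (by positivity) (x * (2:ℝ) ^ S k)
  have h2 : x * (2:ℝ) ^ S k * ((2 ^ (k+1) : ℕ) : ℝ) = x * (2:ℝ) ^ S (k+1) := by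
    push_cast
    rw [S, pow_add]; ring
  rw [h2] at h1
  rw [← h1, dig]
  exact (Int.mul_ediv_add_emod _ _).symm

/-- the interleaved digits -/
def dg (n : ℕ) (z : ℝ × ℝ) : ℤ := if n % 2 = 0 then dig (n/2) z.1 else dig (n/2) z.2

lemma dg_nonneg (n : ℕ) (z : ℝ × ℝ) : 0 ≤ dg n z := by
  unfold dg; split_ifs <;> exact dig_nonneg _ _

lemma dg_lt (n : ℕ) (z : ℝ × ℝ) : dg n z < ((2 ^ (n/2+1) : ℕ) : ℤ) := by
  unfold dg; split_ifs <;> exact dig_lt _ _

/-- exponents of the weights -/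
def E : ℕ → ℕ
  | 0 => 0
  | n+1 => E n + ((n+1)/2 + 2)

lemma E_bound (k : ℕ) : E (2*k) = k*k + 4*k ∧ E (2*k+1) = k*k + 5*k+2 := by
  induction k with
  | zero => simp [E]
  | succ k ih =>
    have h1 : E (2*(k+1)) = E (2*k+1) + ((2*k+1+1)/2 + 2) := rfl
    have h2 : E (2*(k+1)+1) = E (2*(k+1)) + ((2*(k+1)+1)/2 + 2) := rfl
    have h3 : (2*k+1+1)/2 = k+1 := by omega
    have h4 : (2*(k+1)+1)/2 = k+1 := by omega
    rw [h2, h1, ih.2, h3, h4]
    constructor <;> ring

lemma E_le (n : ℕ) : E n ≤ 2 * S (n/2) + 4 * (n/2) + 2 := by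
  rcases Nat.even_or_odd' n with ⟨k, hk | hk⟩
  · have : n / 2 = k := by omega
    rw [this, S_formula, hk, (E_bound k).1]; omega
  · have : n / 2 = k := by omega
    rw [this, S_formula, hk, (E_bound k).2]; omega

/-- the weights -/
def w (n : ℕ) : ℝ := (1/2) ^ E n

lemma w_pos (n : ℕ) : 0 < w n := by unfold w; positivity

lemma w_succ (n : ℕ) : w (n+1) = w n * (1/2) ^ ((n+1)/2+2) := by
  unfold w; rw [E, pow_add]

lemma w_succ_le (n : ℕ) : w (n+1) ≤ w n * (1/4) := by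
  rw [w_succ]
  apply mul_le_mul_of_nonneg_left _ (w_pos n).le
  calc ((1:ℝ)/2) ^ ((n+1)/2+2) ≤ (1/2) ^ 2 :=
        pow_le_pow_of_le_one (by norm_num) (by norm_num) (by omega)
    _ = 1/4 := by norm_num

lemma w_add_le (n m : ℕ) : w (n+m) ≤ w n * (1/4) ^ m := by
  induction m with
  | zero => simp
  | succ m ih =>
    calc w (n + (m+1)) ≤ w (n+m) * (1/4) := w_succ_le _
      _ ≤ w n * (1/4) ^ m * (1/4) := by gcongr
      _ = w n * (1/4) ^ (m+1) := by ring

/-- the bound on one term of the series of differences -/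
lemma term_succ_le (n : ℕ) (e : ℝ) (he : |e| ≤ 2 ^ ((n+1)/2+1)) : |e| * w (n+1) ≤ w n / 2 := by
  rw [w_succ]
  calc |e| * (w n * (1/2) ^ ((n+1)/2+2)) ≤ 2 ^ ((n+1)/2+1) * (w n * (1/2) ^ ((n+1)/2+2)) := by
        apply mul_le_mul_of_nonneg_right he
        have := w_pos n
        positivity
    _ = w n / 2 := by
        have : (2:ℝ) ^ ((n+1)/2+1) * (1/2) ^ ((n+1)/2+2) = 1/2 := by
          rw [pow_succ (1/2 : ℝ) ((n+1)/2+1), ← mul_assoc, ← mul_pow]; norm_num
        calc (2:ℝ) ^ ((n+1)/2+1) * (w n * (1/2) ^ ((n+1)/2+2))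
            = w n * ((2:ℝ) ^ ((n+1)/2+1) * (1/2) ^ ((n+1)/2+2)) := by ring
          _ = w n / 2 := by rw [this]; ring

lemma term_le (n : ℕ) (e : ℝ) (he : |e| ≤ 2 ^ (n/2+1)) : |e| * w n ≤ 2 * (1/4) ^ n := by
  cases n with
  | zero =>
    have hw : w 0 = 1 := by simp [w, E]
    rw [hw]; norm_num at he ⊢; exact he
  | succ n =>
    have h1 := term_succ_le n e he
    have h2 := w_add_le 0 n
    have hw : w 0 = 1 := by simp [w, E]
    rw [zero_add, hw, one_mul] at h2
    calc |e| * w (n+1) ≤ w n / 2 := h1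
      _ ≤ (1/4) ^ n / 2 := by gcongr
      _ = 2 * (1/4) ^ (n+1) := by rw [pow_succ]; ring

lemma abs_dg_le (n : ℕ) (z : ℝ × ℝ) : |(dg n z : ℝ)| ≤ 2 ^ (n/2+1) := by
  rw [abs_of_nonneg (by exact_mod_cast dg_nonneg n z)]
  exact_mod_cast (dg_lt n z).le

lemma summable_geo : Summable (fun n : ℕ => 2 * (1/4 : ℝ) ^ n) :=
  (summable_geometric_of_lt_one (by norm_num) (by norm_num)).mul_left 2

/-- the digit interleaving map -/
def F (z : ℝ × ℝ) : ℝ := ∑' n, (dg n z : ℝ) * w n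

lemma summable_F (z : ℝ × ℝ) : Summable (fun n => (dg n z : ℝ) * w n) := by
  refine Summable.of_norm_bounded summable_geo ?_
  intro n
  rw [Real.norm_eq_abs, abs_mul, abs_of_pos (w_pos n)]
  exact term_le n _ (abs_dg_le n z)

/-- the square of irrational points -/
def I2 : Set (ℝ × ℝ) := {z | Irrational z.1 ∧ Irrational z.2}

lemma floor_continuousOn (k : ℕ) :
    ContinuousOn (fun x : ℝ => ⌊x * (2:ℝ) ^ k⌋) {x | Irrational x} := by
  intro x hx
  apply ContinuousAt.continuousWithinAt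
  have h1 : Irrational (x * (2:ℝ) ^ k) := by
    have : Irrational (x * ((2 ^ k : ℕ) : ℝ)) := Irrational.mul_natCast hx (by positivity)
    push_cast at this
    exact this
  have h2 : Ioo (⌊x * (2:ℝ) ^ k⌋ : ℝ) (⌊x * (2:ℝ) ^ k⌋ + 1) ∈ 𝓝 (x * (2:ℝ) ^ k) := by
    apply Ioo_mem_nhds
    · exact lt_of_le_of_ne (Int.floor_le _) (fun h => h1 ⟨⌊x * (2:ℝ) ^ k⌋, by push_cast; exact h⟩)
    · exact Int.lt_floor_add_one _
  have h3 : ContinuousAt (fun y : ℝ => y * (2:ℝ) ^ k) x := by fun_prop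
  have h4 : ∀ᶠ y in 𝓝 x, ⌊y * (2:ℝ) ^ k⌋ = ⌊x * (2:ℝ) ^ k⌋ := by
    filter_upwards [h3 h2] with y hy
    rw [Int.floor_eq_iff]
    exact ⟨hy.1.le, hy.2⟩
  exact (continuousAt_const (y := ⌊x * (2:ℝ) ^ k⌋)).congr
    (h4.mono fun y hy => hy.symm)

lemma dig_continuousOn (k : ℕ) : ContinuousOn (dig k) {x | Irrational x} := by
  have h : Continuous (fun m : ℤ => m % ((2 ^ (k+1) : ℕ) : ℤ)) := continuous_of_discreteTopology
  exact h.comp_continuousOn (floor_continuousOn (S (k+1)))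

lemma dg_continuousOn (n : ℕ) : ContinuousOn (dg n) I2 := by
  unfold dg
  split_ifs
  · exact (dig_continuousOn _).comp continuousOn_fst (fun z hz => hz.1)
  · exact (dig_continuousOn _).comp continuousOn_snd (fun z hz => hz.2)

lemma F_continuousOn : ContinuousOn F I2 := by
  refine continuousOn_tsum (u := fun n => 2 * (1/4) ^ n) ?_ summable_geo ?_
  · intro n
    have h : Continuous (fun m : ℤ => (m : ℝ) * w n) := continuous_of_discreteTopology
    exact h.comp_continuousOn (dg_continuousOn n)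
  · intro n z _
    rw [Real.norm_eq_abs, abs_mul, abs_of_pos (w_pos n)]
    exact term_le n _ (abs_dg_le n z)

/-- The first differing digit dominates. -/
lemma abs_sub_ge {z z' : ℝ × ℝ} {n : ℕ} (h1 : ∀ i < n, dg i z = dg i z')
    (h2 : dg n z ≠ dg n z') : w n / 3 ≤ |F z - F z'| := by
  set e : ℕ → ℝ := fun m => ((dg m z - dg m z' : ℤ) : ℝ) with he
  have hsum : Summable (fun m => e m * w m) := by
    have := (summable_F z).sub (summable_F z')
    refine this.congr fun m => ?_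
    rw [he]; push_cast; ring
  have hF : F z - F z' = ∑' m, e m * w m := by
    rw [F, F, ← (summable_F z).tsum_sub (summable_F z')]
    congr 1; ext m; rw [he]; push_cast; ring
  have hebd : ∀ m, |e m| ≤ 2 ^ (m/2+1) := by
    intro m
    have a1 := dg_nonneg m z
    have a2 := dg_nonneg m z'
    have a3 := dg_lt m z
    have a4 := dg_lt m z'
    have : |(dg m z - dg m z' : ℤ)| ≤ ((2 ^ (m/2+1) : ℕ) : ℤ) := by
      rw [abs_le]; constructor <;> linarith
    rw [he]
    simp only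
    rw [← Int.cast_abs]
    exact_mod_cast this
  have hsplit := hsum.sum_add_tsum_nat_add (n+1)
  have hfin : ∑ i ∈ Finset.range (n+1), e i * w i = e n * w n := by
    rw [Finset.sum_range_succ]
    have : ∑ i ∈ Finset.range n, e i * w i = 0 := by
      apply Finset.sum_eq_zero
      intro i hi
      rw [he]
      simp only
      rw [h1 i (Finset.mem_range.1 hi), sub_self]
      simp
    rw [this, zero_add]
  have htail : |∑' i, e (i + (n+1)) * w (i + (n+1))| ≤ 2 * w n / 3 := by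
    have hg : HasSum (fun i : ℕ => w n / 2 * (1/4 : ℝ) ^ i) (2 * w n / 3) := by
      have := (hasSum_geometric_of_lt_one (by norm_num : (0:ℝ) ≤ 1/4) (by norm_num)).mul_left
        (w n / 2)
      rw [show ((1:ℝ) - 1/4)⁻¹ = 4/3 by norm_num] at this
      rw [show 2 * w n / 3 = w n / 2 * (4/3) by ring]
      exact this
    rw [← Real.norm_eq_abs]
    refine tsum_of_norm_bounded hg ?_
    intro i
    rw [Real.norm_eq_abs, abs_mul, abs_of_pos (w_pos _)]
    have h3 := term_succ_le (i+n) (e (i + (n+1))) (hebd _)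
    have h4 := w_add_le n i
    calc |e (i + (n+1))| * w (i + (n+1)) ≤ w (i+n) / 2 := h3
      _ ≤ (w n * (1/4) ^ i) / 2 := by rw [add_comm i n]; gcongr
      _ = w n / 2 * (1/4) ^ i := by ring
  have hen : 1 ≤ |e n| := by
    have : (1:ℤ) ≤ |dg n z - dg n z'| := Int.one_le_abs (sub_ne_zero.2 h2)
    rw [he]; simp only
    rw [← Int.cast_abs]
    exact_mod_cast this
  rw [hF, ← hsplit, hfin]
  have h5 : w n ≤ |e n * w n| := by
    rw [abs_mul, abs_of_pos (w_pos n)]
    nlinarith [w_pos n]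
  have h6 := abs_sub_abs_le_abs_add (e n * w n) (∑' i, e (i + (n+1)) * w (i + (n+1)))
  linarith

lemma floor_eq_of_digits {x x' : ℝ} (h0 : ⌊x⌋ = ⌊x'⌋) (k : ℕ)
    (h : ∀ i < k, dig i x = dig i x') : ⌊x * (2:ℝ) ^ S k⌋ = ⌊x' * (2:ℝ) ^ S k⌋ := by
  induction k with
  | zero => simpa [S] using h0
  | succ k ih =>
    rw [floor_succ, floor_succ, ih (fun i hi => h i (by omega)), h k (by omega)]

lemma dist_le_of_digits {z z' : ℝ × ℝ} (h01 : ⌊z.1⌋ = ⌊z'.1⌋) (h02 : ⌊z.2⌋ = ⌊z'.2⌋) {n : ℕ}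
    (h : ∀ i < n, dg i z = dg i z') : dist z z' ≤ (1/2) ^ S (n/2) := by
  have h1 : ∀ i < n/2, dig i z.1 = dig i z'.1 := by
    intro i hi
    have := h (2*i) (by omega)
    unfold dg at this
    rw [if_pos (by omega), if_pos (by omega)] at this
    have e : 2*i/2 = i := by omega
    rwa [e] at this
  have h2 : ∀ i < n/2, dig i z.2 = dig i z'.2 := by
    intro i hi
    have := h (2*i+1) (by omega)
    unfold dg at this
    rw [if_neg (by omega), if_neg (by omega)] at this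
    have e : (2*i+1)/2 = i := by omega
    rwa [e] at this
  have h3 := abs_sub_lt_of_floor_eq (floor_eq_of_digits h01 _ h1)
  have h4 := abs_sub_lt_of_floor_eq (floor_eq_of_digits h02 _ h2)
  rw [Prod.dist_eq, Real.dist_eq, Real.dist_eq]
  exact max_le h3.le h4.le

/-- The quantitative injectivity of the digit interleaving map. -/
lemma exists_digit {z z' : ℝ × ℝ} (h01 : ⌊z.1⌋ = ⌊z'.1⌋) (h02 : ⌊z.2⌋ = ⌊z'.2⌋) (hne : z ≠ z') :
    ∃ n : ℕ, dist z z' ≤ (1/2) ^ S (n/2) ∧ w n / 3 ≤ |F z - F z'| := by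
  classical
  have hex : ∃ n, dg n z ≠ dg n z' := by
    by_contra hcon
    push Not at hcon
    apply hne
    have hd : ∀ n : ℕ, dist z z' ≤ (1/2) ^ n := by
      intro n
      have h1 := dist_le_of_digits h01 h02 (n := 2*n) (fun i _ => hcon i)
      have h2 : 2*n/2 = n := by omega
      rw [h2] at h1
      refine h1.trans ?_
      apply pow_le_pow_of_le_one (by norm_num) (by norm_num)
      have := S_formula n
      nlinarith
    have h0 : dist z z' ≤ 0 := by
      refine ge_of_tendsto' (tendsto_pow_atTop_nhds_zero_of_lt_one (by norm_num : (0:ℝ) ≤ 1/2)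
        (by norm_num)) hd
    exact dist_le_zero.1 h0
  refine ⟨Nat.find hex, ?_, ?_⟩
  · exact dist_le_of_digits h01 h02 (fun i hi => not_not.1 (Nat.find_min hex hi))
  · exact abs_sub_ge (fun i hi => not_not.1 (Nat.find_min hex hi)) (Nat.find_spec hex)

end Pool.Agent.H79.Digits
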