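import Mathlib
import Pool.Agent.H79.Pieces

/-!
# The exceptional set has dimension at most one
-/

set_option autoImplicit false

open Set Filter Topology MeasureTheory
open scoped NNReal ENNReal

noncomputable section

namespace Pool.Agent.H79.Exceptional

open Pool.Agent.H79.Pieces

lemma ediam_closedBall_le (z : ℝ × ℝ) (r : ℝ) :
    Metric.ediam (Metric.closedBall z r) ≤ ENNReal.ofReal (2 * r) := by
  apply Metric.ediam_le
  intro x hx y hy
  rw [edist_dist]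
  apply ENNReal.ofReal_le_ofReal
  have h1 := Metric.mem_closedBall.1 hx
  have h2 := Metric.mem_closedBall.1 hy
  have := dist_triangle_right x y z
  linarith

/-- covering balls -/
def cov (M : ℤ) (j : ℕ) (a : (n : ℕ) × Fin (2 ^ ((j+1)*(n+1)))) : Set (ℝ × ℝ) :=
  Metric.closedBall (q a.1, (M : ℝ) + (a.2 : ℕ) * rad j a.1) (rad j a.1)

lemma cov_cover (M : ℤ) (j : ℕ) : Z1 ×ˢ Ico (M : ℝ) (M+1) ⊆ ⋃ a, cov M j a := by
  rintro ⟨x, y⟩ ⟨hx, hy⟩
  simp only at hx hy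
  have h1 : x ∈ U j := mem_iInter.1 hx j
  obtain ⟨n, hn⟩ := mem_iUnion.1 h1
  have hr := rad_pos j n
  have hrad : rad j n = 1 / 2 ^ ((j+1)*(n+1)) := by unfold rad; rw [one_div_pow]
  have hnn : 0 ≤ (y - M) * 2 ^ ((j+1)*(n+1)) := by
    have : 0 ≤ y - M := by linarith [hy.1]
    positivity
  have hi : ⌊(y - M) * 2 ^ ((j+1)*(n+1))⌋₊ < 2 ^ ((j+1)*(n+1)) := by
    rw [Nat.floor_lt hnn]
    push_cast
    have : y - M < 1 := by linarith [hy.2]
    have h2 : (0:ℝ) < 2 ^ ((j+1)*(n+1)) := by positivity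
    nlinarith
  refine mem_iUnion.2 ⟨⟨n, ⟨⌊(y - M) * 2 ^ ((j+1)*(n+1))⌋₊, hi⟩⟩, ?_⟩
  unfold cov
  rw [Metric.mem_closedBall, Prod.dist_eq]
  apply max_le
  · exact (Metric.mem_ball.1 hn).le
  · simp only
    rw [Real.dist_eq, hrad]
    have h3 := Nat.floor_le hnn
    have h4 := Nat.lt_floor_add_one ((y - M) * 2 ^ ((j+1)*(n+1)))
    have h2 : (0:ℝ) < 2 ^ ((j+1)*(n+1)) := by positivity
    rw [abs_le]
    set i := ⌊(y - M) * 2 ^ ((j+1)*(n+1))⌋₊ with hi'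
    constructor
    · rw [mul_one_div, ← sub_nonneg]
      have : y - (M + (i:ℝ) / 2 ^ ((j+1)*(n+1))) - -(1 / 2 ^ ((j+1)*(n+1))) =
        ((y - M) * 2 ^ ((j+1)*(n+1)) - i + 1) / 2 ^ ((j+1)*(n+1)) := by
        field_simp; ring
      rw [this]
      apply div_nonneg _ h2.le
      linarith
    · rw [mul_one_div, ← sub_nonneg]
      have : 1 / 2 ^ ((j+1)*(n+1)) - (y - (M + (i:ℝ) / 2 ^ ((j+1)*(n+1)))) =
        (1 - ((y - M) * 2 ^ ((j+1)*(n+1)) - i)) / 2 ^ ((j+1)*(n+1)) := by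
        field_simp; ring
      rw [this]
      apply div_nonneg _ h2.le
      linarith

lemma term_bound (M : ℤ) (j : ℕ) (t : ℝ) (ht : 0 < t) (n : ℕ) :
    ∑' i : Fin (2 ^ ((j+1)*(n+1))), Metric.ediam (cov M j ⟨n, i⟩) ^ (1 + t) ≤
      ENNReal.ofReal (2 ^ (1+t)) * (ENNReal.ofReal ((1/2) ^ t)) ^ (n+1) := by
  have hr := rad_pos j n
  have h1 : ∀ i : Fin (2 ^ ((j+1)*(n+1))), Metric.ediam (cov M j ⟨n, i⟩) ^ (1 + t) ≤
      ENNReal.ofReal ((2 * rad j n) ^ (1+t)) := by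
    intro i
    rw [← ENNReal.ofReal_rpow_of_nonneg (by positivity) (by positivity)]
    exact ENNReal.rpow_le_rpow (ediam_closedBall_le _ _) (by positivity)
  calc ∑' i : Fin (2 ^ ((j+1)*(n+1))), Metric.ediam (cov M j ⟨n, i⟩) ^ (1 + t)
      ≤ ∑' _ : Fin (2 ^ ((j+1)*(n+1))), ENNReal.ofReal ((2 * rad j n) ^ (1+t)) :=
        ENNReal.tsum_le_tsum h1
    _ = ((2 ^ ((j+1)*(n+1)) : ℕ) : ℝ≥0∞) * ENNReal.ofReal ((2 * rad j n) ^ (1+t)) := by
        rw [tsum_fintype, Finset.sum_const, Finset.card_univ, Fintype.card_fin, nsmul_eq_mul]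
    _ = ENNReal.ofReal ((2 ^ ((j+1)*(n+1))) * (2 * rad j n) ^ (1+t)) := by
        rw [ENNReal.ofReal_mul (by positivity)]
        congr 1
        rw [ENNReal.ofReal_pow (by norm_num)]
        push_cast
        simp
    _ ≤ ENNReal.ofReal (2 ^ (1+t) * ((1/2) ^ t) ^ (n+1)) := by
        apply ENNReal.ofReal_le_ofReal
        rw [Real.mul_rpow (by norm_num) hr.le, Real.rpow_add hr, Real.rpow_one]
        have h2 : (2:ℝ) ^ ((j+1)*(n+1)) * rad j n = 1 := by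
          unfold rad
          rw [← mul_pow]; norm_num
        have h3 : rad j n ^ t ≤ ((1/2) ^ t) ^ (n+1) := by
          rw [← Real.rpow_natCast, ← Real.rpow_mul (by norm_num), mul_comm t,
            Real.rpow_mul (by norm_num)]
          apply Real.rpow_le_rpow hr.le _ ht.le
          rw [Real.rpow_natCast]
          unfold rad
          apply pow_le_pow_of_le_one (by norm_num) (by norm_num)
          nlinarith
        calc (2:ℝ) ^ ((j+1)*(n+1)) * (2 ^ (1+t) * (rad j n * rad j n ^ t))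
            = 2 ^ (1+t) * ((2 ^ ((j+1)*(n+1)) * rad j n) * rad j n ^ t) := by ring
          _ = 2 ^ (1+t) * rad j n ^ t := by rw [h2, one_mul]
          _ ≤ _ := by gcongr
    _ = ENNReal.ofReal (2 ^ (1+t)) * (ENNReal.ofReal ((1/2) ^ t)) ^ (n+1) := by
        rw [ENNReal.ofReal_mul (by positivity), ENNReal.ofReal_pow (by positivity)]

lemma hausdorff_lt_top (M : ℤ) (t : ℝ≥0) (ht : 0 < t) :
    μH[((1 + t : ℝ≥0) : ℝ)] (Z1 ×ˢ Ico (M : ℝ) (M+1)) ≠ ∞ := by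
  have hc : ((1 + t : ℝ≥0) : ℝ) = 1 + (t : ℝ) := by push_cast; ring
  rw [hc]
  set ρ : ℝ≥0∞ := ENNReal.ofReal ((1/2) ^ (t:ℝ)) with hρ
  have hρ1 : ρ < 1 := by
    rw [hρ, ← ENNReal.ofReal_one]
    apply (ENNReal.ofReal_lt_ofReal_iff (by norm_num)).2
    exact Real.rpow_lt_one (by norm_num) (by norm_num) (by exact_mod_cast ht)
  set B : ℝ≥0∞ := ENNReal.ofReal (2 ^ (1+(t:ℝ))) * (1 - ρ)⁻¹ with hB
  have hB : B ≠ ∞ := by
    apply ENNReal.mul_ne_top ENNReal.ofReal_ne_top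
    rw [ENNReal.inv_ne_top]
    exact (tsub_pos_of_lt hρ1).ne'
  have hbound : ∀ j, ∑' a, Metric.ediam (cov M j a) ^ (1 + (t:ℝ)) ≤ B := by
    intro j
    rw [ENNReal.tsum_sigma']
    calc ∑' (n : ℕ) (i : Fin (2 ^ ((j+1)*(n+1)))), Metric.ediam (cov M j ⟨n, i⟩) ^ (1 + (t:ℝ))
        ≤ ∑' n : ℕ, ENNReal.ofReal (2 ^ (1+(t:ℝ))) * ρ ^ (n+1) :=
          ENNReal.tsum_le_tsum fun n => term_bound M j t (by exact_mod_cast ht) n
      _ = ENNReal.ofReal (2 ^ (1+(t:ℝ))) * ∑' n : ℕ, ρ ^ (n+1) := ENNReal.tsum_mul_left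
      _ ≤ ENNReal.ofReal (2 ^ (1+(t:ℝ))) * ∑' n : ℕ, ρ ^ n := by
          exact mul_le_mul' le_rfl (ENNReal.tsum_le_tsum fun n =>
            pow_le_pow_right_of_le_one' hρ1.le (Nat.le_succ n))
      _ = B := by rw [ENNReal.tsum_geometric]
  have hmain := Measure.hausdorffMeasure_le_liminf_tsum (1 + (t:ℝ)) (Z1 ×ˢ Ico (M : ℝ) (M+1))
    (l := atTop) (fun j : ℕ => ENNReal.ofReal (2 * (1/2) ^ j))
    (by
      have h1 : Tendsto (fun j : ℕ => 2 * (1/2 : ℝ) ^ j) atTop (𝓝 (2 * 0)) :=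
        (tendsto_pow_atTop_nhds_zero_of_lt_one (by norm_num) (by norm_num)).const_mul 2
      rw [mul_zero] at h1
      have h2 := ENNReal.tendsto_ofReal h1
      rwa [ENNReal.ofReal_zero] at h2)
    (cov M)
    (by
      refine Eventually.of_forall fun j a => ?_
      refine (ediam_closedBall_le _ _).trans ?_
      apply ENNReal.ofReal_le_ofReal
      have : rad j a.1 ≤ (1/2) ^ j := by
        unfold rad
        apply pow_le_pow_of_le_one (by norm_num) (by norm_num)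
        nlinarith
      linarith)
    (Eventually.of_forall fun j => cov_cover M j)
  have h3 : liminf (fun j => ∑' a, Metric.ediam (cov M j a) ^ (1 + (t:ℝ))) atTop ≤ B := by
    have h4 := liminf_le_liminf (f := atTop)
      (Eventually.of_forall (fun j => hbound j))
    rwa [liminf_const] at h4
  exact ne_top_of_le_ne_top hB (hmain.trans h3)

lemma dimH_strip (M : ℤ) : dimH (Z1 ×ˢ Ico (M : ℝ) (M+1)) ≤ 1 := by
  apply ENNReal.le_of_forall_pos_le_add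
  intro t ht _
  have h := dimH_le_of_hausdorffMeasure_ne_top (hausdorff_lt_top M t ht)
  exact_mod_cast h

lemma dimH_left : dimH (Z1 ×ˢ (univ : Set ℝ)) ≤ 1 := by
  have h : Z1 ×ˢ (univ : Set ℝ) = ⋃ M : ℤ, Z1 ×ˢ Ico (M : ℝ) (M+1) := by
    ext ⟨x, y⟩
    constructor
    · rintro ⟨hx, _⟩
      exact mem_iUnion.2 ⟨⌊y⌋, hx, Int.floor_le y, Int.lt_floor_add_one y⟩
    · intro h
      obtain ⟨M, hM⟩ := mem_iUnion.1 h
      exact ⟨hM.1, mem_univ _⟩
  rw [h, dimH_iUnion]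
  exact iSup_le fun M => dimH_strip M

/-- the swap isometry -/
lemma dimH_right : dimH ((univ : Set ℝ) ×ˢ Z1) ≤ 1 := by
  have h : (univ : Set ℝ) ×ˢ Z1 = Prod.swap '' (Z1 ×ˢ (univ : Set ℝ)) := by
    ext ⟨x, y⟩
    simp
  rw [h]
  have hl : LipschitzWith 1 (Prod.swap : ℝ × ℝ → ℝ × ℝ) := by
    apply LipschitzWith.of_dist_le_mul
    intro a b
    rw [NNReal.coe_one, one_mul, Prod.dist_eq, Prod.dist_eq, max_comm]
    rfl
  exact (hl.dimH_image_le _).trans dimH_left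

/-- the exceptional set in the plane -/
def Z2 : Set (ℝ × ℝ) := {z | z.1 ∈ Z1 ∨ z.2 ∈ Z1}

lemma dimH_Z2 : dimH Z2 ≤ 1 := by
  have h : Z2 = Z1 ×ˢ (univ : Set ℝ) ∪ (univ : Set ℝ) ×ˢ Z1 := by
    ext ⟨x, y⟩
    simp [Z2]
  rw [h, dimH_union]
  exact max_le dimH_left dimH_right

end Pool.Agent.H79.Exceptional
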