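import Mathlib
import Pool.Agent.H79.Digits

/-!
# Gluing by the Tietze extension theorem
-/

set_option autoImplicit false

open Set Filter Topology

noncomputable section

namespace Pool.Agent.H79.Glue

open Pool.Agent.H79.Pieces Pool.Agent.H79.Digits

/-- dyadic cells -/
def cell (m : ℕ) (z : ℝ × ℝ) : ℤ × ℤ := (⌊z.1 * (2:ℝ) ^ m⌋, ⌊z.2 * (2:ℝ) ^ m⌋)

/-- corner of the dyadic cell -/
def corner (m : ℕ) (z : ℝ × ℝ) : ℝ × ℝ := (⌊z.1 * (2:ℝ) ^ m⌋ / 2 ^ m, ⌊z.2 * (2:ℝ) ^ m⌋ / 2 ^ m)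

lemma corner_eq_of_cell_eq {m : ℕ} {z z' : ℝ × ℝ} (h : cell m z = cell m z') :
    corner m z = corner m z' := by
  have h1 : ⌊z.1 * (2:ℝ) ^ m⌋ = ⌊z'.1 * (2:ℝ) ^ m⌋ := congrArg Prod.fst h
  have h2 : ⌊z.2 * (2:ℝ) ^ m⌋ = ⌊z'.2 * (2:ℝ) ^ m⌋ := congrArg Prod.snd h
  rw [corner, corner, h1, h2]

lemma abs_corner_le (m : ℕ) (x : ℝ) : |x - ⌊x * (2:ℝ) ^ m⌋ / 2 ^ m| ≤ (1/2) ^ m := by
  have h2 : (0:ℝ) < 2 ^ m := by positivity
  have h3 : x - ⌊x * (2:ℝ) ^ m⌋ / 2 ^ m = (x * 2 ^ m - ⌊x * (2:ℝ) ^ m⌋) / 2 ^ m := by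
    field_simp
  rw [h3, abs_div, abs_of_pos h2, one_div, inv_pow, ← one_div]
  apply div_le_div_of_nonneg_right _ h2.le
  rw [abs_of_nonneg (by linarith [Int.floor_le (x * (2:ℝ) ^ m)])]
  linarith [Int.lt_floor_add_one (x * (2:ℝ) ^ m)]

lemma dist_corner_le (m : ℕ) (z : ℝ × ℝ) : dist z (corner m z) ≤ (1/2) ^ m := by
  rw [Prod.dist_eq, Real.dist_eq, Real.dist_eq]
  exact max_le (abs_corner_le m z.1) (abs_corner_le m z.2)

lemma corner_continuousOn (m : ℕ) : ContinuousOn (corner m) I2 := by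
  unfold corner
  have h : Continuous (fun k : ℤ => (k : ℝ) / 2 ^ m) := continuous_of_discreteTopology
  apply ContinuousOn.prodMk
  · exact h.comp_continuousOn ((floor_continuousOn m).comp continuousOn_fst (fun z hz => hz.1))
  · exact h.comp_continuousOn ((floor_continuousOn m).comp continuousOn_snd (fun z hz => hz.2))

/-- One step of the construction. -/
lemma step (g : C(ℝ × ℝ, ℝ)) (L K : Set (ℝ × ℝ)) (hL : IsClosed L) (hK : IsCompact K)
    (hLK : Disjoint L K) (hKI : K ⊆ I2) (ε : ℝ) (hε : 0 < ε) :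
    ∃ U : C(ℝ × ℝ, ℝ), (∀ z, |U z| ≤ ε) ∧ (∀ z ∈ L, U z = 0) ∧
      ∃ l : ℝ, 0 < l ∧ ∃ m : ℕ, ∀ z ∈ K, ∀ z' ∈ K, cell m z = cell m z' →
        (g z + U z) - (g z' + U z') = l * (F z - F z') := by
  classical
  -- bound for `F` on `K`
  obtain ⟨R, hR⟩ := hK.exists_bound_of_continuousOn (F_continuousOn.mono hKI)
  have hR' : ∀ z ∈ K, |F z| ≤ |R| + 1 := fun z hz => (hR z hz).trans
    (by linarith [le_abs_self R])
  set l : ℝ := ε / (2 * (|R| + 1)) with hl
  have hl0 : 0 < l := by positivity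
  -- uniform continuity of `g` near `K`
  have hcomp : IsCompact (Metric.cthickening 1 K) := hK.cthickening
  have huc := hcomp.uniformContinuousOn_of_continuous g.continuous.continuousOn
  rw [Metric.uniformContinuousOn_iff] at huc
  obtain ⟨δ, hδ, huc⟩ := huc (ε/2) (by positivity)
  obtain ⟨m, hm⟩ := exists_pow_lt_of_lt_one hδ (by norm_num : (1/2 : ℝ) < 1)
  have hcor : ∀ z ∈ K, |g (corner m z) - g z| ≤ ε / 2 := by
    intro z hz
    have hz1 : z ∈ Metric.cthickening 1 K := Metric.self_subset_cthickening _ hz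
    have hz2 : corner m z ∈ Metric.cthickening 1 K := by
      apply Metric.mem_cthickening_of_dist_le _ z _ _ hz
      rw [dist_comm]
      exact (dist_corner_le m z).trans (pow_le_one₀ (by norm_num) (by norm_num))
    have := huc _ hz2 _ hz1 (by
      rw [dist_comm]; exact lt_of_le_of_lt (dist_corner_le m z) hm)
    rw [Real.dist_eq] at this
    exact this.le
  set u : ℝ × ℝ → ℝ := fun z => g (corner m z) + l * F z - g z with hu
  have huK : ContinuousOn u K := by
    apply ContinuousOn.sub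
    · apply ContinuousOn.add
      · exact g.continuous.comp_continuousOn ((corner_continuousOn m).mono hKI)
      · exact continuousOn_const.mul (F_continuousOn.mono hKI)
    · exact g.continuous.continuousOn
  have hubd : ∀ z ∈ K, |u z| ≤ ε := by
    intro z hz
    have h1 := hcor z hz
    have h2 : |l * F z| ≤ ε / 2 := by
      rw [abs_mul, abs_of_pos hl0]
      calc l * |F z| ≤ l * (|R| + 1) := by gcongr; exact hR' z hz
        _ = ε / 2 := by rw [hl]; field_simp
    have h3 : u z = (g (corner m z) - g z) + l * F z := by rw [hu]; ring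
    rw [h3]
    calc |(g (corner m z) - g z) + l * F z| ≤ |g (corner m z) - g z| + |l * F z| := abs_add_le _ _
      _ ≤ ε := by linarith
  set v : ℝ × ℝ → ℝ := fun z => if z ∈ K then u z else 0 with hv
  have hvK : ContinuousOn v K := huK.congr fun z hz => by rw [hv]; simp only [if_pos hz]
  have hvL : ContinuousOn v L := (continuousOn_const (c := (0:ℝ))).congr fun z hz => by
    rw [hv]; simp only [if_neg (disjoint_left.1 hLK hz)]
  have hvU : ContinuousOn v (L ∪ K) := hvL.union_of_isClosed hvK hL hK.isClosed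
  obtain ⟨U, hU1, hU2⟩ := ContinuousMap.exists_restrict_eq_forall_mem_of_closed
    (s := L ∪ K) (⟨(L ∪ K).domRestrict v, continuousOn_iff_continuous_domRestrict.1 hvU⟩)
    (t := Icc (-ε) ε)
    (by
      rintro ⟨z, hz⟩
      show v z ∈ Icc (-ε) ε
      rw [mem_Icc, ← abs_le]
      by_cases hzK : z ∈ K
      · rw [hv]; simp only [if_pos hzK]; exact hubd z hzK
      · rw [hv]; simp only [if_neg hzK, abs_zero]; exact hε.le)
    ⟨0, by constructor <;> linarith⟩ (hL.union hK.isClosed)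
  have hUv : ∀ z ∈ L ∪ K, U z = v z := by
    intro z hz
    have := congrArg (fun φ => φ ⟨z, hz⟩) hU2
    exact this
  refine ⟨U, fun z => abs_le.2 (hU1 z), ?_, l, hl0, m, ?_⟩
  · intro z hz
    rw [hUv z (Or.inl hz), hv]
    simp only [if_neg (disjoint_left.1 hLK hz)]
  · intro z hz z' hz' hcell
    rw [hUv z (Or.inr hz), hUv z' (Or.inr hz'), hv]
    simp only [if_pos hz, if_pos hz']
    rw [hu]
    simp only
    rw [corner_eq_of_cell_eq hcell]
    ring

/-- Gluing: a continuous function on the plane which on each piece of a countable disjoint family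
of compact sets of irrational points is locally a positive multiple of `F` plus a constant. -/
theorem glue (K : ℕ → Set (ℝ × ℝ)) (hK : ∀ n, IsCompact (K n)) (hKI : ∀ n, K n ⊆ I2)
    (hdis : ∀ n m, n ≠ m → Disjoint (K n) (K m)) :
    ∃ f : ℝ × ℝ → ℝ, Continuous f ∧ ∀ n, ∃ l : ℝ, 0 < l ∧ ∃ m : ℕ,
      ∀ z ∈ K n, ∀ z' ∈ K n, cell m z = cell m z' → f z - f z' = l * (F z - F z') := by
  classical
  set L : ℕ → Set (ℝ × ℝ) := fun n => ⋃ k ∈ Finset.range n, K k with hL
  have hLc : ∀ n, IsClosed (L n) := fun n =>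
    (Finset.range n).finite_toSet.isClosed_biUnion fun k _ => (hK k).isClosed
  have hLK : ∀ n, Disjoint (L n) (K n) := by
    intro n
    rw [Set.disjoint_left]
    intro z hz hzn
    rw [hL] at hz
    simp only [mem_iUnion, Finset.mem_range] at hz
    obtain ⟨k, hk, hzk⟩ := hz
    exact disjoint_left.1 (hdis k n (by omega)) hzk hzn
  choose stepU hU1 hU2 hU3 using fun (n : ℕ) (g : C(ℝ × ℝ, ℝ)) =>
    step g (L n) (K n) (hLc n) (hK n) (hLK n) (hKI n) ((1/2) ^ n) (by positivity)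
  -- partial sums
  let fs : ℕ → C(ℝ × ℝ, ℝ) := fun n => Nat.rec 0 (fun n g => g + stepU n g) n
  have fs_succ : ∀ n, fs (n+1) = fs n + stepU n (fs n) := fun n => rfl
  set V : ℕ → C(ℝ × ℝ, ℝ) := fun n => stepU n (fs n) with hV
  have hfs : ∀ n z, fs n z = ∑ k ∈ Finset.range n, V k z := by
    intro n z
    induction n with
    | zero => rfl
    | succ n ih =>
      rw [fs_succ, Finset.sum_range_succ, ← ih]
      rfl
  have hVbd : ∀ n z, ‖V n z‖ ≤ (1/2) ^ n := fun n z => hU1 n (fs n) z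
  have hsummable : Summable (fun n : ℕ => (1/2 : ℝ) ^ n) :=
    summable_geometric_of_lt_one (by norm_num) (by norm_num)
  refine ⟨fun z => ∑' n, V n z, continuous_tsum (fun n => (V n).continuous) hsummable hVbd, ?_⟩
  intro n
  have hval : ∀ z ∈ K n, ∑' k, V k z = fs n z + V n z := by
    intro z hz
    have h0 : ∀ k ∉ Finset.range (n+1), V k z = 0 := by
      intro k hk
      rw [Finset.mem_range, not_lt] at hk
      apply hU2 k (fs k) z
      rw [hL]
      simp only [mem_iUnion, Finset.mem_range]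
      exact ⟨n, by omega, hz⟩
    rw [tsum_eq_sum h0, Finset.sum_range_succ, hfs]
  obtain ⟨l, hl, m, hm⟩ := hU3 n (fs n)
  refine ⟨l, hl, m, fun z hz z' hz' hcell => ?_⟩
  simp only
  rw [hval z hz, hval z' hz']
  exact hm z hz z' hz' hcell

end Pool.Agent.H79.Glue
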