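import Mathlib
import Pool.Agent.H79.Digits

/-!
# Hölder estimates and dimension
-/

set_option autoImplicit false

open Set Filter Topology
open scoped NNReal ENNReal

noncomputable section

namespace Pool.Agent.H79.Holder

open Pool.Agent.H79.Pieces Pool.Agent.H79.Digits

lemma holder_F (κ : ℝ) (h0 : 0 < κ) (h1 : κ < 1/2) :
    ∃ C : ℝ, 0 < C ∧ ∀ z z' : ℝ × ℝ, ⌊z.1⌋ = ⌊z'.1⌋ → ⌊z.2⌋ = ⌊z'.2⌋ →
      dist z z' ≤ C * |F z - F z'| ^ κ := by
  set δ : ℝ := 1 - 2 * κ with hδ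
  have hδ0 : 0 < δ := by rw [hδ]; linarith
  set c : ℝ := 2 / δ + 2 with hc
  refine ⟨2 ^ c, by positivity, ?_⟩
  intro z z' h01 h02
  by_cases hne : z = z'
  · subst hne
    rw [dist_self]; positivity
  obtain ⟨n, hn1, hn2⟩ := exists_digit h01 h02 hne
  set k := n / 2 with hk
  have hlow : (1/2 : ℝ) ^ (2 * S k + 4 * k + 4) ≤ |F z - F z'| := by
    refine le_trans ?_ hn2
    have hE := E_le n
    rw [← hk] at hE
    have : (1/2 : ℝ) ^ (2 * S k + 4 * k + 2) ≤ w n := by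
      unfold w
      exact pow_le_pow_of_le_one (by norm_num) (by norm_num) hE
    calc (1/2 : ℝ) ^ (2 * S k + 4 * k + 4) = (1/2 : ℝ) ^ (2 * S k + 4 * k + 2) * (1/4) := by
          rw [show 2 * S k + 4 * k + 4 = (2 * S k + 4 * k + 2) + 2 by ring, pow_add]; norm_num
      _ ≤ w n * (1/4) := by gcongr
      _ ≤ w n / 3 := by have := w_pos n; linarith
  have hr : ∀ m : ℕ, (1/2 : ℝ) ^ m = (2:ℝ) ^ (-(m:ℝ)) := by
    intro m
    rw [Real.rpow_neg (by norm_num), Real.rpow_natCast, one_div, inv_pow]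
  have hpow : (2:ℝ) ^ (-(((2 * S k + 4 * k + 4 : ℕ) : ℝ)) * κ) ≤ |F z - F z'| ^ κ := by
    rw [Real.rpow_mul (by norm_num), ← hr]
    exact Real.rpow_le_rpow (by positivity) hlow h0.le
  calc dist z z' ≤ (1/2) ^ S k := hn1
    _ = 2 ^ (-((S k : ℕ) : ℝ)) := hr _
    _ ≤ 2 ^ (c + (-(((2 * S k + 4 * k + 4 : ℕ) : ℝ)) * κ)) := by
        apply Real.rpow_le_rpow_of_exponent_le (by norm_num)
        have hS : 2 * (S k : ℝ) = k * k + k := by exact_mod_cast S_formula k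
        have hk0 : (0:ℝ) ≤ k := Nat.cast_nonneg k
        push_cast
        have h4 : δ * ((k:ℝ) - 2/δ)^2 ≥ 0 := by positivity
        have h5 : δ * ((k:ℝ) - 2/δ)^2 = δ * k^2 - 4 * k + 4/δ := by
          field_simp; ring
        have h6 : 4/δ = 2 * (2/δ) := by ring
        rw [hc]
        have h7 : κ = (1 - δ)/2 := by rw [hδ]; ring
        rw [h7]
        nlinarith
    _ = 2 ^ c * 2 ^ (-(((2 * S k + 4 * k + 4 : ℕ) : ℝ)) * κ) := by
        rw [Real.rpow_add (by norm_num)]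
    _ ≤ 2 ^ c * |F z - F z'| ^ κ := by gcongr

/-- An inverse Hölder map does not decrease dimension by more than the exponent. -/
lemma dimH_le_of_inverse_holder {X : Type*} [MetricSpace X] {P : Set X} {f : X → ℝ} {C κ : ℝ}
    (hC : 0 < C) (hκ : 0 < κ) (h : ∀ z ∈ P, ∀ z' ∈ P, dist z z' ≤ C * |f z - f z'| ^ κ) :
    dimH P ≤ dimH (f '' P) / ENNReal.ofReal κ := by
  rcases P.eq_empty_or_nonempty with hP | ⟨z0, hz0⟩
  · rw [hP]; simp
  have : Nonempty X := ⟨z0⟩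
  have hinj : InjOn f P := by
    intro z hz z' hz' hzz
    have := h z hz z' hz'
    rw [hzz, sub_self, abs_zero, Real.zero_rpow hκ.ne', mul_zero] at this
    exact dist_le_zero.1 this
  set g : ℝ → X := Function.invFunOn f P with hg
  have hgf : ∀ z ∈ P, g (f z) = z := fun z hz => hinj.leftInvOn_invFunOn hz
  have hhol : HolderOnWith C.toNNReal κ.toNNReal g (f '' P) := by
    rintro u ⟨z, hz, rfl⟩ v ⟨z', hz', rfl⟩
    rw [hgf z hz, hgf z' hz', edist_dist, edist_dist, Real.dist_eq]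
    rw [Real.coe_toNNReal κ hκ.le, ENNReal.ofReal_rpow_of_nonneg (abs_nonneg _) hκ.le]
    rw [← ENNReal.ofReal, ← ENNReal.ofReal_mul hC.le]
    exact ENNReal.ofReal_le_ofReal (h z hz z' hz')
  have h1 := hhol.dimH_image_le (Real.toNNReal_pos.2 hκ)
  have h2 : g '' (f '' P) = P := by
    ext z
    constructor
    · rintro ⟨_, ⟨z', hz', rfl⟩, rfl⟩
      rw [hgf z' hz']; exact hz'
    · intro hz
      exact ⟨f z, mem_image_of_mem _ hz, hgf z hz⟩
  rw [h2] at h1
  exact h1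

end Pool.Agent.H79.Holder
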